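import Mathlib

set_option autoImplicit false

namespace Pool.Agent.V5helper43.ET

open Finset

/-- elements of `X` whose distance below `n` lies in `[W 4^j, W 4^(j+1))` -/
def shell (X : Finset ℕ) (W n j : ℕ) : Finset ℕ :=
  X.filter (fun y => y + W * 4 ^ j ≤ n ∧ n < y + W * 4 ^ (j + 1))

/-- elements of `X` in `(n - W 4^j, n]` -/
def near (X : Finset ℕ) (W n j : ℕ) : Finset ℕ :=
  X.filter (fun y => y ≤ n ∧ n < y + W * 4 ^ j)

lemma card_near_succ (X : Finset ℕ) (W n j : ℕ) :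
    (near X W n (j + 1)).card = (near X W n j).card + (shell X W n j).card := by
  rw [← Finset.card_union_of_disjoint]
  · congr 1
    ext y
    simp only [near, shell, mem_union, mem_filter]
    have h1 : W * 4 ^ (j + 1) = 4 * (W * 4 ^ j) := by ring
    rw [h1]
    constructor
    · rintro ⟨hy, h2, h3⟩
      by_cases h4 : n < y + W * 4 ^ j
      · exact Or.inl ⟨hy, h2, h4⟩
      · exact Or.inr ⟨hy, by omega, h3⟩
    · rintro (⟨hy, h2, h3⟩ | ⟨hy, h2, h3⟩)
      · exact ⟨hy, h2, by omega⟩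
      · exact ⟨hy, by omega, h3⟩
  · rw [Finset.disjoint_left]
    intro y h1 h2
    simp only [near, shell, mem_filter] at h1 h2
    omega

lemma card_near_add (X : Finset ℕ) (W n j d : ℕ) :
    (near X W n (j + d)).card
      = (near X W n j).card + ∑ i ∈ range d, (shell X W n (j + i)).card := by
  induction d with
  | zero => simp
  | succ d ih =>
    rw [← Nat.add_assoc, card_near_succ, ih, Finset.sum_range_succ]
    ring

/-- a set with at most `K` representations of each sum has few elements in a short interval -/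
lemma card_near_sq_le (X : Finset ℕ) (W n j K : ℕ)
    (hK : ∀ s, ((X ×ˢ X).filter (fun p => p.1 + p.2 = s)).card ≤ K) :
    (near X W n j).card ^ 2 ≤ K * (2 * (W * 4 ^ j)) := by
  have h1 : (near X W n j ×ˢ near X W n j).card
      ≤ K * (Finset.range (2 * (W * 4 ^ j))).card := by
    refine Finset.card_le_mul_card_image_of_maps_to
      (f := fun p : ℕ × ℕ => 2 * n - (p.1 + p.2)) ?_ K ?_
    · rintro ⟨a, b⟩ hp
      simp only [near, mem_product, mem_filter] at hp
      simp only [Finset.mem_range]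
      omega
    · intro z _
      refine le_trans (Finset.card_le_card ?_) (hK (2 * n - z))
      rintro ⟨a, b⟩ hp
      simp only [near, mem_product, mem_filter] at hp ⊢
      refine ⟨⟨hp.1.1.1, hp.1.2.1⟩, by omega⟩
  rw [Finset.card_product, Finset.card_range] at h1
  rw [sq]
  exact h1

/-- few elements `n` of `X` have few elements of `X` closely below them -/
lemma card_bad_le (X : Finset ℕ) (W j d : ℕ) (hW : 0 < W)
    (hX : ∀ x ∈ X, x < W * 4 ^ (j + d)) (c : ℝ) :
    ((X.filter (fun n => ((near X W n j).card : ℝ) ≤ c)).card : ℝ) ≤ 4 ^ d * max c 0 := by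
  set Bad := X.filter (fun n => ((near X W n j).card : ℝ) ≤ c) with hBad
  have hpos : 0 < W * 4 ^ j := by positivity
  have hmap : ∀ x ∈ Bad, x / (W * 4 ^ j) ∈ Finset.range (4 ^ d) := by
    intro x hx
    rw [Finset.mem_range, Nat.div_lt_iff_lt_mul hpos]
    have := hX x (Finset.mem_filter.mp hx).1
    calc x < W * 4 ^ (j + d) := this
      _ = 4 ^ d * (W * 4 ^ j) := by ring
  rw [Finset.card_eq_sum_card_fiberwise hmap]
  push_cast
  have hfib : ∀ a ∈ Finset.range (4 ^ d),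
      ((Bad.filter (fun x => x / (W * 4 ^ j) = a)).card : ℝ) ≤ max c 0 := by
    intro a _
    set F := Bad.filter (fun x => x / (W * 4 ^ j) = a) with hF
    rcases F.eq_empty_or_nonempty with h0 | hne
    · rw [h0]; simp
    · have hm := F.max'_mem hne
      set n := F.max' hne with hn
      have hnBad : n ∈ Bad := (Finset.mem_filter.mp hm).1
      have hna : n / (W * 4 ^ j) = a := (Finset.mem_filter.mp hm).2
      have hcard := (Finset.mem_filter.mp hnBad).2
      refine le_trans ?_ (le_trans hcard (le_max_left _ _))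
      have hsub : F ⊆ near X W n j := by
        intro y hy
        have hyB : y ∈ Bad := (Finset.mem_filter.mp hy).1
        have hya : y / (W * 4 ^ j) = a := (Finset.mem_filter.mp hy).2
        have hyX : y ∈ X := (Finset.mem_filter.mp hyB).1
        refine Finset.mem_filter.mpr ⟨hyX, F.le_max' y hy, ?_⟩
        have h1 := Nat.div_add_mod n (W * 4 ^ j)
        have h2 := Nat.div_add_mod y (W * 4 ^ j)
        have h3 := Nat.mod_lt n hpos
        rw [hna] at h1
        rw [hya] at h2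
        omega
      exact_mod_cast Finset.card_le_card hsub
  calc ∑ a ∈ Finset.range (4 ^ d), ((Bad.filter (fun x => x / (W * 4 ^ j) = a)).card : ℝ)
      ≤ ∑ _a ∈ Finset.range (4 ^ d), max c 0 := Finset.sum_le_sum hfib
    _ = 4 ^ d * max c 0 := by simp

/-- **Many scales.**  A finite set with few representations of each sum and about `√` density has
a point below which `T` different 4-adic scales each carry a positive proportion of the set. -/
theorem many_scales_explicit (T K W q : ℕ) (hW : 0 < W) (c : ℝ) (hc : 0 < c)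
    (hq : 4 * ((T : ℝ) + 1) * Real.sqrt (2 * K * W) ≤ 2 ^ q * c)
    (k : ℕ) (hk : (2 ^ T - 1) * (q + 1) ≤ k) (X : Finset ℕ)
    (hX : ∀ x ∈ X, x < W * 4 ^ k) (hcard : c * 2 ^ k ≤ X.card)
    (hK : ∀ s, ((X ×ˢ X).filter (fun p => p.1 + p.2 = s)).card ≤ K) :
    ∃ n : ℕ, ∃ j : Fin T → ℕ, Function.Injective j ∧
      ∀ i, k - (2 ^ T - 1) * (q + 1) ≤ j i ∧ j i < k ∧
        c / (4 * (T + 1) * 4 ^ ((2 ^ T - 1) * (q + 1)) * (((2 ^ T - 1) * (q + 1) : ℕ) + 1)) * 2 ^ k
          ≤ (shell X W n (j i)).card := by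
  -- depths
  let l : ℕ → ℕ := fun i => (2 ^ i - 1) * (q + 1)
  have hl0 : l 0 = 0 := by simp [l]
  have hlsucc : ∀ i, l (i + 1) = 2 * l i + (q + 1) := by
    intro i
    simp only [l]
    obtain ⟨m, hm⟩ : ∃ m, 2 ^ i = m + 1 := ⟨2 ^ i - 1, by have := Nat.one_le_two_pow (n := i); omega⟩
    rw [pow_succ, hm]
    have : (m + 1) * 2 - 1 = 2 * m + 1 := by omega
    rw [this]
    have h2 : m + 1 - 1 = m := by omega
    rw [h2]
    ring
  have hlmono : StrictMono l := by
    apply strictMono_nat_of_lt_succ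
    intro i
    rw [hlsucc]
    omega
  change l T ≤ k at hk
  change ∃ n : ℕ, ∃ j : Fin T → ℕ, Function.Injective j ∧
      ∀ i, k - l T ≤ j i ∧ j i < k ∧
        c / (4 * (T + 1) * 4 ^ (l T) * ((l T : ℕ) + 1)) * 2 ^ k
          ≤ (shell X W n (j i)).card
  -- the point n
  have hlk : ∀ i ≤ T, l i ≤ k := fun i hi => le_trans (hlmono.monotone hi) hk
  have hbad : ∀ i ∈ Finset.range (T + 1),
      ((X.filter (fun n => ((near X W n (k - l i)).card : ℝ)
        ≤ c * 2 ^ k / (2 * (T + 1) * 4 ^ (l i)))).card : ℝ) ≤ c * 2 ^ k / (2 * (T + 1)) := by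
    intro i hi
    have hi' : i ≤ T := Nat.lt_succ_iff.mp (Finset.mem_range.mp hi)
    have h1 := card_bad_le X W (k - l i) (l i) hW
      (by rw [Nat.sub_add_cancel (hlk i hi')]; exact hX)
      (c * 2 ^ k / (2 * (T + 1) * 4 ^ (l i)))
    rw [max_eq_left (by positivity)] at h1
    refine le_trans h1 (le_of_eq ?_)
    field_simp
  have hex : ∃ n ∈ X, ∀ i ≤ T, c * 2 ^ k / (2 * (T + 1) * 4 ^ (l i))
      < ((near X W n (k - l i)).card : ℝ) := by
    by_contra hcon
    push Not at hcon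
    have hsub : X ⊆ (Finset.range (T + 1)).biUnion (fun i => X.filter (fun n =>
        ((near X W n (k - l i)).card : ℝ) ≤ c * 2 ^ k / (2 * (T + 1) * 4 ^ (l i)))) := by
      intro n hn
      obtain ⟨i, hi, h⟩ := hcon n hn
      rw [Finset.mem_biUnion]
      exact ⟨i, Finset.mem_range.mpr (Nat.lt_succ_of_le hi), Finset.mem_filter.mpr ⟨hn, h⟩⟩
    have h0 := le_trans (Finset.card_le_card hsub) Finset.card_biUnion_le
    have h1 : (X.card : ℝ) ≤ ∑ i ∈ Finset.range (T + 1), c * 2 ^ k / (2 * (T + 1)) := by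
      refine le_trans (Nat.cast_le.mpr h0) ?_
      rw [Nat.cast_sum]
      exact Finset.sum_le_sum hbad
    rw [Finset.sum_const, Finset.card_range, nsmul_eq_mul] at h1
    push_cast at h1
    have h2 : ((T : ℝ) + 1) * (c * 2 ^ k / (2 * (T + 1))) = c * 2 ^ k / 2 := by
      field_simp
    rw [h2] at h1
    have h3 : 0 < c * 2 ^ k := by positivity
    linarith
  obtain ⟨n, hnX, hn⟩ := hex
  -- the near sets are small
  have hsmall : ∀ j, ((near X W n j).card : ℝ) ≤ Real.sqrt (2 * K * W) * 2 ^ j := by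
    intro j
    have h1 := card_near_sq_le X W n j K hK
    have h2 : (((near X W n j).card : ℝ)) ^ 2 ≤ (Real.sqrt (2 * K * W) * 2 ^ j) ^ 2 := by
      rw [mul_pow, Real.sq_sqrt (by positivity), ← pow_mul, mul_comm j 2, pow_mul]
      norm_num
      have : (((near X W n j).card : ℝ)) ^ 2 ≤ K * (2 * (W * 4 ^ j)) := by exact_mod_cast h1
      linarith
    exact le_of_sq_le_sq h2 (by positivity)
  have hstep : ∀ i < T, ∃ j, k - l (i + 1) ≤ j ∧ j < k - l i ∧
      c / (4 * (T + 1) * 4 ^ (l T) * (l T + 1)) * 2 ^ k ≤ (shell X W n j).card := by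
    intro i hi
    by_contra hcon
    push Not at hcon
    have hli : l (i + 1) ≤ k := hlk (i + 1) hi
    have hlt : l i < l (i + 1) := hlmono (Nat.lt_succ_self i)
    have hd : k - l i = (k - l (i + 1)) + (l (i + 1) - l i) := by omega
    have h1 := card_near_add X W n (k - l (i + 1)) (l (i + 1) - l i)
    rw [← hd] at h1
    have h2 := hn i hi.le
    have h3 := hsmall (k - l (i + 1))
    have h4 : ∑ t ∈ range (l (i + 1) - l i), ((shell X W n (k - l (i + 1) + t)).card : ℝ)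
        ≤ ∑ _t ∈ range (l (i + 1) - l i),
          c / (4 * (T + 1) * 4 ^ (l T) * (l T + 1)) * 2 ^ k := by
      apply Finset.sum_le_sum
      intro t ht
      rw [Finset.mem_range] at ht
      exact (hcon (k - l (i + 1) + t) (by omega) (by omega)).le
    rw [Finset.sum_const, Finset.card_range, nsmul_eq_mul] at h4
    have h1' : ((near X W n (k - l i)).card : ℝ) = (near X W n (k - l (i + 1))).card
        + ∑ t ∈ range (l (i + 1) - l i), ((shell X W n (k - l (i + 1) + t)).card : ℝ) := by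
      exact_mod_cast h1
    -- bound the two pieces
    have h5 : ((l (i + 1) - l i : ℕ) : ℝ) ≤ (l T : ℝ) := by
      have : l (i + 1) ≤ l T := hlmono.monotone hi
      exact_mod_cast (by omega : l (i + 1) - l i ≤ l T)
    have h6 : ((l (i + 1) - l i : ℕ) : ℝ) * (c / (4 * (T + 1) * 4 ^ (l T) * (l T + 1)) * 2 ^ k)
        ≤ c * 2 ^ k / (4 * (T + 1) * 4 ^ (l i)) := by
      have h7 : (4 : ℝ) ^ (l i) ≤ 4 ^ (l T) :=
        pow_le_pow_right₀ (by norm_num) (hlmono.monotone hi.le)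
      calc ((l (i + 1) - l i : ℕ) : ℝ) * (c / (4 * (T + 1) * 4 ^ (l T) * (l T + 1)) * 2 ^ k)
          ≤ ((l T : ℝ) + 1) * (c / (4 * (T + 1) * 4 ^ (l T) * (l T + 1)) * 2 ^ k) := by
            apply mul_le_mul_of_nonneg_right _ (by positivity)
            linarith
        _ = c * 2 ^ k / (4 * (T + 1) * 4 ^ (l T)) := by field_simp
        _ ≤ c * 2 ^ k / (4 * (T + 1) * 4 ^ (l i)) := by
            apply div_le_div_of_nonneg_left (by positivity) (by positivity)
            apply mul_le_mul_of_nonneg_left h7 (by positivity)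
    have h8 : Real.sqrt (2 * K * W) * 2 ^ (k - l (i + 1))
        ≤ c * 2 ^ k / (4 * (T + 1) * 4 ^ (l i)) := by
      rw [le_div_iff₀ (by positivity)]
      have h9 : (2 : ℝ) ^ k = 2 ^ (k - l (i + 1)) * (4 ^ (l i) * 2 ^ (q + 1)) := by
        have h4' : (4 : ℝ) ^ (l i) = 2 ^ (2 * l i) := by
          rw [pow_mul (2 : ℝ) 2 (l i)]
          norm_num only
        rw [h4', ← pow_add, ← pow_add]
        congr 1
        have := hlsucc i
        omega
      rw [h9]
      have h10 : (2 : ℝ) ^ (q + 1) = 2 * 2 ^ q := by ring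
      rw [h10]
      have h11 : Real.sqrt (2 * K * W) * (4 * ((T : ℝ) + 1)) ≤ c * (2 * 2 ^ q) := by
        have : 0 ≤ 2 ^ q * c := by positivity
        nlinarith
      calc Real.sqrt (2 * K * W) * 2 ^ (k - l (i + 1)) * (4 * (T + 1) * 4 ^ (l i))
          = (Real.sqrt (2 * K * W) * (4 * ((T : ℝ) + 1))) * (2 ^ (k - l (i + 1)) * 4 ^ (l i)) := by
            ring
        _ ≤ (c * (2 * 2 ^ q)) * (2 ^ (k - l (i + 1)) * 4 ^ (l i)) :=
            mul_le_mul_of_nonneg_right h11 (by positivity)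
        _ = c * (2 ^ (k - l (i + 1)) * (4 ^ (l i) * (2 * 2 ^ q))) := by ring
    have h12 : c * 2 ^ k / (2 * (T + 1) * 4 ^ (l i))
        = c * 2 ^ k / (4 * (T + 1) * 4 ^ (l i)) + c * 2 ^ k / (4 * (T + 1) * 4 ^ (l i)) := by
      field_simp
      norm_num
    linarith
  choose j hj1 hj2 hj3 using hstep
  refine ⟨n, fun i => j i.1 i.2, ?_, ?_⟩
  · -- strictly decreasing, hence injective
    have hanti : ∀ a b (ha : a < T) (hb : b < T), a < b → j b hb < j a ha := by
      intro a b ha hb hab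
      have h1 := hj2 b hb
      have h2 := hj1 a ha
      have h3 : l (a + 1) ≤ l b := hlmono.monotone hab
      omega
    intro a b hab
    rcases lt_trichotomy a.1 b.1 with h | h | h
    · have := hanti a.1 b.1 a.2 b.2 h
      simp only at hab
      omega
    · exact Fin.ext h
    · have := hanti b.1 a.1 b.2 a.2 h
      simp only at hab
      omega
  · intro i
    have h1 := hj1 i.1 i.2
    have h2 : l (i.1 + 1) ≤ l T := hlmono.monotone i.2
    have h3 := hj2 i.1 i.2
    exact ⟨le_trans (by omega) h1, lt_of_lt_of_le h3 (by omega), hj3 i.1 i.2⟩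

/-- The same with natural-number parameters: the loss is polynomial in `M`. -/
theorem many_scales_poly (T : ℕ) : ∃ s₀ M₀ : ℕ, ∀ M ≥ M₀, ∀ W : ℕ, 0 < W → W ≤ M →
    ∃ L : ℕ, L + 1 ≤ M ^ 4 ∧ ∀ k ≥ L, ∀ X : Finset ℕ,
      (∀ x ∈ X, x < W * 4 ^ k) → 2 ^ k ≤ M * X.card →
      (∀ s, ((X ×ˢ X).filter (fun p => p.1 + p.2 = s)).card ≤ T) →
      ∃ n : ℕ, ∃ j : Fin T → ℕ, Function.Injective j ∧
        ∀ i, k - L ≤ j i ∧ j i < k ∧ 2 ^ k ≤ M ^ s₀ * (shell X W n (j i)).card := by
  refine ⟨9 * 2 ^ T + 2, 32 * (T + 1) ^ 2 + 2 ^ T + 1, ?_⟩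
  intro M hM W hW0 hWM
  have hT2 : 1 ≤ 2 ^ T := Nat.one_le_two_pow
  have hM1 : 1 ≤ M := by omega
  have hM32 : 32 * (T + 1) ^ 2 ≤ M := by omega
  have hMT : 2 ^ T ≤ M := by omega
  -- the least power of two above 8 (T+1)^2 M^2
  obtain ⟨q, hq1, hq2⟩ : ∃ q, 8 * (T + 1) ^ 2 * M ^ 2 ≤ 2 ^ q ∧ 2 ^ (q + 1) ≤ M ^ 3 := by
    refine ⟨Nat.clog 2 (8 * (T + 1) ^ 2 * M ^ 2), Nat.le_pow_clog (by norm_num) _, ?_⟩
    have h1 : 1 < 8 * (T + 1) ^ 2 * M ^ 2 := by
      have : 1 ≤ (T + 1) ^ 2 * M ^ 2 := Nat.one_le_iff_ne_zero.mpr (by positivity)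
      nlinarith
    have h2 := Nat.pow_pred_clog_lt_self (b := 2) (by norm_num) h1
    have h3 : 0 < Nat.clog 2 (8 * (T + 1) ^ 2 * M ^ 2) := Nat.clog_pos (by norm_num) h1
    obtain ⟨r, hr⟩ : ∃ r, Nat.clog 2 (8 * (T + 1) ^ 2 * M ^ 2) = r + 1 :=
      ⟨_, (Nat.succ_pred_eq_of_pos h3).symm⟩
    rw [hr] at h2 ⊢
    simp only [Nat.pred_succ] at h2
    calc 2 ^ (r + 1 + 1) = 4 * 2 ^ r := by ring
      _ ≤ 4 * (8 * (T + 1) ^ 2 * M ^ 2) := Nat.mul_le_mul_left _ h2.le
      _ = (32 * (T + 1) ^ 2) * M ^ 2 := by ring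
      _ ≤ M * M ^ 2 := Nat.mul_le_mul_right _ hM32
      _ = M ^ 3 := by ring
  refine ⟨(2 ^ T - 1) * (q + 1), ?_, ?_⟩
  · have h1 : q + 1 < 2 ^ (q + 1) := Nat.lt_two_pow_self
    have h2 : 1 ≤ 2 ^ T := Nat.one_le_two_pow
    obtain ⟨u, hu⟩ : ∃ u, 2 ^ T = u + 1 := ⟨2 ^ T - 1, by omega⟩
    rw [hu]
    calc (u + 1 - 1) * (q + 1) + 1 = u * (q + 1) + 1 := by simp
      _ ≤ (u + 1) * (q + 1) := by nlinarith
      _ ≤ (u + 1) * M ^ 3 := Nat.mul_le_mul_left _ (by omega)
      _ ≤ M * M ^ 3 := Nat.mul_le_mul_right _ (by omega)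
      _ = M ^ 4 := by ring
  · intro k hk X hX hcard hK
    have hMr : (0 : ℝ) < M := by exact_mod_cast hM1
    have hqr : (8 * ((T : ℝ) + 1) ^ 2 * M ^ 2) ≤ 2 ^ q := by exact_mod_cast hq1
    have hsq : Real.sqrt (2 * T * W) ≤ 2 * ((T : ℝ) + 1) * M := by
      rw [Real.sqrt_le_left (by positivity)]
      have h1 : (W : ℝ) ≤ M := by exact_mod_cast hWM
      have h2 : (1 : ℝ) ≤ M := by exact_mod_cast hM1
      calc 2 * (T : ℝ) * W ≤ 2 * ((T : ℝ) + 1) * M := by
            apply mul_le_mul _ h1 (by positivity) (by positivity)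
            linarith
        _ ≤ (2 * ((T : ℝ) + 1) * M) * (2 * ((T : ℝ) + 1) * M) := by
            have h3 : 1 ≤ 2 * ((T : ℝ) + 1) * M := by
              have : (0 : ℝ) ≤ T := by positivity
              nlinarith
            nlinarith
        _ = (2 * ((T : ℝ) + 1) * M) ^ 2 := by ring
    obtain ⟨n, j, hj, h⟩ := many_scales_explicit T T W q hW0 (1 / M) (by positivity) (by
      rw [mul_one_div, le_div_iff₀ hMr]
      calc 4 * ((T : ℝ) + 1) * Real.sqrt (2 * T * W) * M
          ≤ 4 * ((T : ℝ) + 1) * (2 * ((T : ℝ) + 1) * M) * M := by gcongr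
        _ = 8 * ((T : ℝ) + 1) ^ 2 * M ^ 2 := by ring
        _ ≤ 2 ^ q := hqr) k hk X hX (by
      rw [one_div, inv_mul_le_iff₀ hMr]
      exact_mod_cast hcard) hK
    refine ⟨n, j, hj, fun i => ⟨(h i).1, (h i).2.1, ?_⟩⟩
    have h3 := (h i).2.2
    set L := (2 ^ T - 1) * (q + 1) with hL
    -- 4 ^ L ≤ M ^ (3 * 2^(T+1)) etc.
    have h4 : 4 * (T + 1) ≤ M := by nlinarith
    have h5 : 2 ^ L ≤ M ^ (3 * (2 ^ T - 1)) := by
      rw [hL, mul_comm (2 ^ T - 1) (q + 1), pow_mul, pow_mul]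
      exact Nat.pow_le_pow_left hq2 _
    have h6 : L + 1 ≤ 2 ^ L := Nat.lt_two_pow_self
    have h7 : M * (4 * (T + 1) * 4 ^ L * (L + 1)) ≤ M ^ (9 * 2 ^ T + 2) := by
      have h8 : 4 ^ L = 2 ^ L * 2 ^ L := by rw [← mul_pow]; norm_num
      calc M * (4 * (T + 1) * 4 ^ L * (L + 1))
          ≤ M * (M * (2 ^ L * 2 ^ L) * 2 ^ L) := by
            rw [h8]; gcongr
        _ = M ^ 2 * (2 ^ L) ^ 3 := by ring
        _ ≤ M ^ 2 * (M ^ (3 * (2 ^ T - 1))) ^ 3 := by gcongr
        _ = M ^ (2 + 3 * (2 ^ T - 1) * 3) := by rw [← pow_mul, ← pow_add]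
        _ ≤ M ^ (9 * 2 ^ T + 2) := by
            apply Nat.pow_le_pow_right hM1
            have := Nat.one_le_two_pow (n := T)
            omega
    have h9 : (2 : ℝ) ^ k ≤ (M * (4 * (T + 1) * 4 ^ L * (L + 1))) * (shell X W n (j i)).card := by
      have h10 : (1 / (M : ℝ)) / (4 * (T + 1) * 4 ^ L * (L + 1)) * 2 ^ k
          = 2 ^ k / (M * (4 * (T + 1) * 4 ^ L * (L + 1))) := by
        field_simp
      rw [h10, div_le_iff₀ (by positivity)] at h3
      linarith
    have h11 : 2 ^ k ≤ (M * (4 * (T + 1) * 4 ^ L * (L + 1))) * (shell X W n (j i)).card := by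
      exact_mod_cast h9
    exact le_trans h11 (Nat.mul_le_mul_right _ h7)

end Pool.Agent.V5helper43.ET
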