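import Mathlib
import Pool.Agent.V5helper43.ET.Scales

set_option autoImplicit false

namespace Pool.Agent.V5helper43.ET

open MeasureTheory ProbabilityTheory

/-- the number of ordered representations of `m` as a sum of two elements of `A` -/
noncomputable def rep (A : Set ℕ) (m : ℕ) : ℕ :=
  {p : ℕ × ℕ | p.1 ∈ A ∧ p.2 ∈ A ∧ p.1 + p.2 = m}.ncard

/-- the union of the blocks `B k`, the `k`-th block being translated by `s k` -/
def shifted (B : ℕ → Set ℕ) (s : ℕ → ℕ) : Set ℕ := {x | ∃ k, ∃ b ∈ B k, x = b + s k}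

lemma rep_finite (A : Set ℕ) (m : ℕ) :
    {p : ℕ × ℕ | p.1 ∈ A ∧ p.2 ∈ A ∧ p.1 + p.2 = m}.Finite := by
  apply (Finset.HasAntidiagonal.antidiagonal m).finite_toSet.subset
  rintro ⟨a, b⟩ h
  simp only [Finset.mem_coe, Finset.HasAntidiagonal.mem_antidiagonal]
  exact h.2.2

lemma pair_finite (A B : Set ℕ) (m : ℕ) :
    {p : ℕ × ℕ | p.1 ∈ A ∧ p.2 ∈ B ∧ p.1 + p.2 = m}.Finite := by
  apply (Finset.HasAntidiagonal.antidiagonal m).finite_toSet.subset
  rintro ⟨a, b⟩ h
  simp only [Finset.mem_coe, Finset.HasAntidiagonal.mem_antidiagonal]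
  exact h.2.2

lemma rep_ge_of_pair (B : ℕ → Set ℕ) (s : ℕ → ℕ) (k j u : ℕ) :
    {p : ℕ × ℕ | p.1 ∈ B k ∧ p.2 ∈ B j ∧ p.1 + p.2 = u}.ncard
      ≤ rep (shifted B s) (u + s k + s j) := by
  unfold rep
  refine Set.ncard_le_ncard_of_injOn (fun p => (p.1 + s k, p.2 + s j)) ?_ ?_ (rep_finite _ _)
  · rintro ⟨a, b⟩ ⟨ha, hb, hab⟩
    simp only at ha hb hab
    refine ⟨⟨k, a, ha, rfl⟩, ⟨j, b, hb, rfl⟩, ?_⟩
    simp only
    omega
  · rintro ⟨a, b⟩ _ ⟨a', b'⟩ _ h
    simp only [Prod.mk.injEq, Nat.add_right_cancel_iff] at h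
    exact Prod.ext h.1 h.2

lemma le_rep_of_injective {T : ℕ} (A : Set ℕ) (m : ℕ) (f : Fin T → ℕ × ℕ)
    (hf : Function.Injective f) (h : ∀ i, (f i).1 ∈ A ∧ (f i).2 ∈ A ∧ (f i).1 + (f i).2 = m) :
    T ≤ rep A m := by
  unfold rep
  have h1 : (Set.range f).ncard = T := by
    rw [← Set.image_univ, Set.ncard_image_of_injective _ hf, Set.ncard_univ, Nat.card_eq_fintype_card,
      Fintype.card_fin]
  rw [← h1]
  apply Set.ncard_le_ncard _ (rep_finite _ _)
  rintro _ ⟨i, rfl⟩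
  exact h i

/-- lower bound for the probability of hitting a finite set of residual sums -/
lemma prob_hit {Ω : Type*} [MeasurableSpace Ω] (μ : Measure Ω) [IsProbabilityMeasure μ]
    (σ : Ω → ℕ) (hσ : Measurable σ) (S : Finset ℕ) (p : ℝ)
    (hp : ∀ t ∈ S, p ≤ μ.real (σ ⁻¹' {t})) :
    (S.card : ℝ) * p ≤ μ.real (σ ⁻¹' (S : Set ℕ)) := by
  have h1 : σ ⁻¹' (S : Set ℕ) = ⋃ t ∈ S, σ ⁻¹' {t} := by
    ext ω; simp
  rw [h1, measureReal_biUnion_finset]
  · calc (S.card : ℝ) * p = ∑ _t ∈ S, p := by simp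
      _ ≤ _ := Finset.sum_le_sum hp
  · intro a _ b _ hab
    simp only [Function.onFun]
    apply Disjoint.preimage
    simpa using hab
  · intro t _
    exact hσ (measurableSet_singleton t)

/-- the residual shifts: those `t` for which `y + b + t = n` for some `y` in a given shell of `X`
and some `b` in `D` -/
def resid (X D : Finset ℕ) (W n j : ℕ) : Finset ℕ :=
  ((shell X W n j) ×ˢ D).image (fun p => n - (p.1 + p.2))

lemma mem_resid {X D : Finset ℕ} {W n j t : ℕ} (hD : ∀ b ∈ D, b < W * 4 ^ j)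
    (h : t ∈ resid X D W n j) :
    t < 4 * W * 4 ^ j ∧ ∃ y ∈ X, ∃ b ∈ D, y + W * 4 ^ j ≤ n ∧ n < y + W * 4 ^ (j + 1)
      ∧ y + b + t = n := by
  unfold resid at h
  rw [Finset.mem_image] at h
  obtain ⟨⟨y, b⟩, hyb, rfl⟩ := h
  simp only [shell, Finset.mem_product, Finset.mem_filter] at hyb
  obtain ⟨⟨hy, h1, h2⟩, hb⟩ := hyb
  have h3 := hD b hb
  have h4 : W * 4 ^ (j + 1) = 4 * W * 4 ^ j := by ring
  refine ⟨by simp only; omega, y, hy, b, hb, h1, h2, by simp only; omega⟩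

lemma card_resid {X D : Finset ℕ} {W n j K : ℕ} (hD : ∀ b ∈ D, b < W * 4 ^ j)
    (hK : ∀ s, ((X ×ˢ D).filter (fun p => p.1 + p.2 = s)).card ≤ K) :
    (shell X W n j).card * D.card ≤ K * (resid X D W n j).card := by
  rw [← Finset.card_product]
  unfold resid
  refine Finset.card_le_mul_card_image _ K ?_
  intro t ht
  refine le_trans (Finset.card_le_card ?_) (hK (n - t))
  rintro ⟨y, b⟩ hp
  simp only [shell, Finset.mem_product, Finset.mem_filter] at hp ⊢
  obtain ⟨⟨⟨hy, h1, h2⟩, hb⟩, h3⟩ := hp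
  have h4 := hD b hb
  exact ⟨⟨hy, hb⟩, by omega⟩

theorem block_shifts {Ω : Type*} [MeasurableSpace Ω] (μ : Measure Ω) [IsProbabilityMeasure μ]
    (B : ℕ → Set ℕ) (τ : ℕ → Ω → ℕ) (hτ : ∀ k, Measurable (τ k)) (hind : iIndepFun τ μ)
    (hwin : ∀ s N : ℕ, ∃ m M W : ℕ, N ≤ M ∧ W ≤ M ∧ ∀ j, m ≤ j → j < m + M ^ s →
      B j ⊆ Set.Iio (W * 4 ^ j) ∧ 2 ^ j ≤ M * (B j).ncard ∧
      ∀ t < 4 * W * 4 ^ j, 1 ≤ M * 4 ^ j * μ.real {ω | τ j ω = t}) :
    ∀ᵐ ω ∂μ, ∀ K : ℕ, ∃ m, K ≤ rep (shifted B (fun k => τ k ω)) m := by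
  rw [ae_all_iff]
  intro T
  by_cases hpair : ∃ k j u, T ≤ {p : ℕ × ℕ | p.1 ∈ B k ∧ p.2 ∈ B j ∧ p.1 + p.2 = u}.ncard
  · obtain ⟨k, j, u, h⟩ := hpair
    exact Filter.Eventually.of_forall fun ω =>
      ⟨_, le_trans h (rep_ge_of_pair B (fun k => τ k ω) k j u)⟩
  push Not at hpair
  obtain ⟨s₀, M₀, hscales⟩ := many_scales_poly T
  set s₁ := T * (s₀ + 3) with hs₁
  -- it is enough to bound the failure probability
  suffices hmain : ∀ N : ℕ, μ {ω | ¬ ∃ m, T ≤ rep (shifted B (fun k => τ k ω)) m}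
      ≤ ENNReal.ofReal (Real.exp (-(N : ℝ))) by
    rw [ae_iff]
    have hlim : Filter.Tendsto (fun N : ℕ => ENNReal.ofReal (Real.exp (-(N : ℝ)))) Filter.atTop
        (nhds (ENNReal.ofReal 0)) := by
      apply (ENNReal.continuous_ofReal.tendsto 0).comp
      exact Real.tendsto_exp_neg_atTop_nhds_zero.comp tendsto_natCast_atTop_atTop
    rw [ENNReal.ofReal_zero] at hlim
    exact le_antisymm (ge_of_tendsto' hlim hmain) zero_le
  intro N
  obtain ⟨m, M, W, hNM, hWM, hgood'⟩ := hwin (s₁ + 5) (N + M₀ + T + 1)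
  have hM1 : 1 ≤ M := by omega
  have hMr : (1 : ℝ) ≤ M := by exact_mod_cast hM1
  have hgood : ∀ j, m ≤ j → j < m + M ^ (s₁ + 5) → B j ⊆ Set.Iio (W * 4 ^ j) ∧
      2 ^ j ≤ M * (B j).ncard ∧ ∀ t < 4 * W * 4 ^ j, 1 ≤ M * 4 ^ j * μ.real (τ j ⁻¹' {t}) :=
    hgood'
  have hW : 0 < W := by
    obtain ⟨h1, h2, _⟩ := hgood m le_rfl (by
      have : 0 < M ^ (s₁ + 5) := by positivity
      omega)
    by_contra h0
    have hW0 : W = 0 := by omega
    rw [hW0, zero_mul] at h1
    have h3 : B m = ∅ := by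
      rw [Set.eq_empty_iff_forall_notMem]
      intro x hx
      have := h1 hx
      simp at this
    rw [h3, Set.ncard_empty, mul_zero] at h2
    have : 0 < 2 ^ m := by positivity
    omega
  obtain ⟨L, hLM, hL⟩ := hscales M (by omega) W hW hWM
  set R := M ^ (s₁ + 1) with hR
  have hRM : R * M ^ 4 = M ^ (s₁ + 5) := by rw [hR, ← pow_add]
  let k : ℕ → ℕ := fun i => m + i * (L + 1) + L
  have hkgap : ∀ i i', i < i' → k i + 1 ≤ k i' - L := by
    intro i i' h
    have h2 : i * (L + 1) + (L + 1) ≤ i' * (L + 1) := by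
      calc i * (L + 1) + (L + 1) = (i + 1) * (L + 1) := by ring
        _ ≤ i' * (L + 1) := Nat.mul_le_mul_right _ h
    simp only [k]
    omega
  have hkwin : ∀ i < R, ∀ j, k i - L ≤ j → j ≤ k i → m ≤ j ∧ j < m + M ^ (s₁ + 5) := by
    intro i hi j h1 h2
    have h3 : i * (L + 1) + (L + 1) ≤ M ^ (s₁ + 5) := by
      calc i * (L + 1) + (L + 1) = (i + 1) * (L + 1) := by ring
        _ ≤ R * M ^ 4 := Nat.mul_le_mul hi hLM
        _ = M ^ (s₁ + 5) := hRM
    simp only [k] at h1 h2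
    omega
  -- finset versions of the blocks
  classical
  let D : ℕ → Finset ℕ := fun j => (Finset.range (W * 4 ^ j)).filter (fun x => x ∈ B j)
  have hDB : ∀ j x, x ∈ D j → x ∈ B j := by
    intro j x hx
    exact (Finset.mem_filter.mp hx).2
  have hDlt : ∀ j x, x ∈ D j → x < W * 4 ^ j := by
    intro j x hx
    exact Finset.mem_range.mp (Finset.mem_filter.mp hx).1
  have hDcard : ∀ i < R, ∀ j, k i - L ≤ j → j ≤ k i → 2 ^ j ≤ M * (D j).card := by
    intro i hi j h1 h2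
    obtain ⟨h5, h6⟩ := hkwin i hi j h1 h2
    obtain ⟨h3, h4, _⟩ := hgood j h5 h6
    have : B j = (D j : Set ℕ) := by
      ext x
      simp only [D, Finset.mem_coe, Finset.mem_filter, Finset.mem_range]
      exact ⟨fun h => ⟨h3 h, h⟩, fun h => h.2⟩
    rw [this, Set.ncard_coe_finset] at h4
    exact h4
  have hDpair : ∀ j j' s, ((D j ×ˢ D j').filter (fun p => p.1 + p.2 = s)).card ≤ T := by
    intro j j' s
    refine le_trans ?_ (hpair j j' s).le
    rw [← Set.ncard_coe_finset]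
    apply Set.ncard_le_ncard _ (pair_finite _ _ _)
    rintro ⟨a, b⟩ h
    simp only [Finset.mem_coe, Finset.mem_filter, Finset.mem_product] at h
    exact ⟨hDB _ _ h.1.1, hDB _ _ h.1.2, h.2⟩
  have hstr : ∀ i : Fin R, ∃ n : ℕ, ∃ j : Fin T → ℕ, Function.Injective j ∧
      ∀ a, k i - L ≤ j a ∧ j a < k i ∧
        2 ^ (k i) ≤ M ^ s₀ * (shell (D (k i)) W n (j a)).card := by
    intro i
    exact hL (k i) (by simp only [k]; omega) (D (k i)) (hDlt (k i))
      (hDcard i i.2 (k i) (by omega) le_rfl) (hDpair _ _)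
  choose n j hjinj hj using hstr
  -- the hitting events
  let S : Fin R × Fin T → Finset ℕ := fun p =>
    resid (D (k p.1)) (D (j p.1 p.2)) W (n p.1) (j p.1 p.2)
  let g : Fin R × Fin T → ℕ := fun p => j p.1 p.2
  have hg : Function.Injective g := by
    rintro ⟨i, a⟩ ⟨i', a'⟩ h
    simp only [g] at h
    have hmm : i = i' := by
      rcases lt_trichotomy i.1 i'.1 with hlt | heq | hlt
      · have h1 := hkgap i.1 i'.1 hlt
        have h2 := hj i a
        have h3 := hj i' a'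
        omega
      · exact Fin.ext heq
      · have h1 := hkgap i'.1 i.1 hlt
        have h2 := hj i a
        have h3 := hj i' a'
        omega
    subst hmm
    exact Prod.ext rfl (hjinj i h)
  have hindg : iIndepFun (fun p => τ (g p)) μ := hind.precomp hg
  -- lower bound for the probability of each event
  set κ : ℝ := 1 / (M : ℝ) ^ (s₀ + 3) with hκ
  have hκpos : 0 < κ := by positivity
  have hprob : ∀ p, κ ≤ μ.real (τ (g p) ⁻¹' (S p : Set ℕ)) := by
    rintro ⟨i, a⟩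
    obtain ⟨h1, h2, h3⟩ := hj i a
    obtain ⟨hw1, hw2⟩ := hkwin i i.2 (j i a) h1 h2.le
    obtain ⟨_, _, h4⟩ := hgood (j i a) hw1 hw2
    have h5 := prob_hit μ (τ (g (i, a))) (hτ _) (S (i, a)) (1 / (M * 4 ^ (j i a))) (by
      intro t ht
      rw [div_le_iff₀ (by positivity), mul_comm]
      exact h4 t (mem_resid (hDlt _) ht).1)
    refine le_trans ?_ h5
    have h6 := card_resid (X := D (k i)) (D := D (j i a)) (W := W) (n := n i) (j := j i a) (K := T)
      (hDlt _) (hDpair _ _)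
    have h7 : 4 ^ (j i a) ≤ M ^ (s₀ + 2) * (S (i, a)).card := by
      calc 4 ^ (j i a) = 2 ^ (j i a) * 2 ^ (j i a) := by rw [← mul_pow]; norm_num
        _ ≤ 2 ^ (k i) * 2 ^ (j i a) :=
            Nat.mul_le_mul_right _ (Nat.pow_le_pow_right (by norm_num) h2.le)
        _ ≤ (M ^ s₀ * (shell (D (k i)) W (n i) (j i a)).card) * (M * (D (j i a)).card) :=
            Nat.mul_le_mul h3 (hDcard i i.2 (j i a) h1 h2.le)
        _ = M ^ (s₀ + 1) * ((shell (D (k i)) W (n i) (j i a)).card * (D (j i a)).card) := by ring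
        _ ≤ M ^ (s₀ + 1) * (T * (S (i, a)).card) := Nat.mul_le_mul_left _ h6
        _ ≤ M ^ (s₀ + 1) * (M * (S (i, a)).card) :=
            Nat.mul_le_mul_left _ (Nat.mul_le_mul_right _ (by omega))
        _ = M ^ (s₀ + 2) * (S (i, a)).card := by ring
    have h8 : (4 : ℝ) ^ (j i a) ≤ M ^ (s₀ + 2) * (S (i, a)).card := by exact_mod_cast h7
    rw [hκ, mul_one_div, div_le_div_iff₀ (by positivity) (by positivity)]
    calc 1 * ((M : ℝ) * 4 ^ (j i a)) ≤ 1 * (M * (M ^ (s₀ + 2) * (S (i, a)).card)) := by gcongr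
      _ = (S (i, a)).card * (M : ℝ) ^ (s₀ + 3) := by ring
  -- the window events
  let E : Fin R → Set Ω := fun i => ⋂ a : Fin T, τ (g (i, a)) ⁻¹' (S (i, a) : Set ℕ)
  have hEmeas : ∀ i, MeasurableSet (E i) := by
    intro i
    exact MeasurableSet.iInter fun a => hτ _ (Finset.measurableSet _)
  have hprod : ∀ F : Finset (Fin R), μ (⋂ i ∈ F, E i)
      = ∏ i ∈ F, ∏ a : Fin T, μ (τ (g (i, a)) ⁻¹' (S (i, a) : Set ℕ)) := by
    intro F
    have h1 : (⋂ i ∈ F, E i) = ⋂ p ∈ F ×ˢ (Finset.univ : Finset (Fin T)),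
        τ (g p) ⁻¹' (S p : Set ℕ) := by
      ext ω
      simp only [E, Set.mem_iInter, Finset.mem_product, Finset.mem_univ, and_true, Prod.forall]
      exact ⟨fun h i a hi => h i hi a, fun h i hi a => h i a hi⟩
    rw [h1, hindg.measure_inter_preimage_eq_mul (F ×ˢ (Finset.univ : Finset (Fin T)))
      (fun p _ => Finset.measurableSet _), Finset.prod_product]
  have hEprod : ∀ i, μ (E i) = ∏ a : Fin T, μ (τ (g (i, a)) ⁻¹' (S (i, a) : Set ℕ)) := by
    intro i
    have := hprod {i}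
    simpa using this
  have hEindep : iIndepSet E μ := by
    rw [iIndepSet_iff_meas_biInter hEmeas]
    intro F
    rw [hprod F]
    exact Finset.prod_congr rfl fun i _ => (hEprod i).symm
  have hElow : ∀ i, κ ^ T ≤ μ.real (E i) := by
    intro i
    rw [Measure.real, hEprod i, ENNReal.toReal_prod]
    calc κ ^ T = ∏ _a : Fin T, κ := by simp
      _ ≤ _ := by
        apply Finset.prod_le_prod
        · intro a _; exact hκpos.le
        · intro a _
          exact hprob (i, a)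
  have hfail : μ (⋂ i ∈ (Finset.univ : Finset (Fin R)), (E i)ᶜ) = ∏ i : Fin R, μ ((E i)ᶜ) := by
    apply iIndep.meas_biInter hEindep
    intro i _
    exact MeasurableSet.compl (MeasurableSpace.measurableSet_generateFrom rfl)
  have hκT : κ ^ T * R = M := by
    rw [hκ, div_pow, one_pow, ← pow_mul, mul_comm (s₀ + 3) T, ← hs₁, hR]
    push_cast
    rw [pow_succ]
    have : (M : ℝ) ^ s₁ ≠ 0 := by positivity
    field_simp
  have hκ1 : κ ^ T ≤ 1 := by
    apply pow_le_one₀ hκpos.le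
    rw [hκ, div_le_one (by positivity)]
    exact one_le_pow₀ hMr
  -- success on any window event
  have hsucc : ∀ i : Fin R, ∀ ω ∈ E i, ∃ u, T ≤ rep (shifted B (fun k => τ k ω)) u := by
    intro i ω hω
    have hrep : ∀ a : Fin T, ∃ y ∈ B (k i), ∃ b ∈ B (j i a),
        y + W * 4 ^ (j i a) ≤ n i ∧ n i < y + W * 4 ^ (j i a + 1) ∧
          y + b + τ (j i a) ω = n i := by
      intro a
      have h1 : τ (g (i, a)) ω ∈ S (i, a) := by
        have := Set.mem_iInter.mp hω a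
        simpa using this
      obtain ⟨_, y, hy, b, hb, h2, h3, h4⟩ := mem_resid (hDlt _) h1
      exact ⟨y, hDB _ _ hy, b, hDB _ _ hb, h2, h3, h4⟩
    choose y hy b hb h1 h2 h3 using hrep
    refine ⟨n i + τ (k i) ω, le_rep_of_injective _ _
      (fun a => (y a + τ (k i) ω, b a + τ (j i a) ω)) ?_ ?_⟩
    · intro a a' h
      simp only [Prod.mk.injEq, Nat.add_right_cancel_iff] at h
      apply hjinj i
      by_contra hne
      rcases Nat.lt_or_gt_of_ne hne with hlt | hlt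
      · have h4 : W * 4 ^ (j i a + 1) ≤ W * 4 ^ (j i a') :=
          Nat.mul_le_mul_left _ (Nat.pow_le_pow_right (by norm_num) hlt)
        have h5 := h2 a
        have h6 := h1 a'
        omega
      · have h4 : W * 4 ^ (j i a' + 1) ≤ W * 4 ^ (j i a) :=
          Nat.mul_le_mul_left _ (Nat.pow_le_pow_right (by norm_num) hlt)
        have h5 := h2 a'
        have h6 := h1 a
        omega
    · intro a
      refine ⟨⟨k i, y a, hy a, rfl⟩, ⟨j i a, b a, hb a, rfl⟩, ?_⟩
      have := h3 a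
      simp only
      omega
  have hsub : {ω | ¬ ∃ m, T ≤ rep (shifted B (fun k => τ k ω)) m}
      ⊆ ⋂ i ∈ (Finset.univ : Finset (Fin R)), (E i)ᶜ := by
    intro ω hω
    simp only [Finset.mem_univ, Set.iInter_true, Set.mem_iInter]
    intro i hi
    exact hω (hsucc i ω hi)
  refine le_trans (measure_mono hsub) ?_
  rw [hfail]
  have hcompl : ∀ i, μ ((E i)ᶜ) ≤ ENNReal.ofReal (Real.exp (-(κ ^ T))) := by
    intro i
    rw [ENNReal.le_ofReal_iff_toReal_le (measure_ne_top _ _) (Real.exp_pos _).le]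
    change μ.real ((E i)ᶜ) ≤ _
    rw [probReal_compl_eq_one_sub (hEmeas i)]
    have h1 := hElow i
    have h2 := Real.add_one_le_exp (-(κ ^ T))
    linarith
  calc ∏ i : Fin R, μ ((E i)ᶜ) ≤ ∏ _i : Fin R, ENNReal.ofReal (Real.exp (-(κ ^ T))) :=
        Finset.prod_le_prod' fun i _ => hcompl i
    _ = ENNReal.ofReal (Real.exp (-(M : ℝ))) := by
        rw [Finset.prod_const, Finset.card_univ, Fintype.card_fin,
          ← ENNReal.ofReal_pow (Real.exp_pos _).le, ← Real.exp_nat_mul]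
        congr 2
        linarith
    _ ≤ ENNReal.ofReal (Real.exp (-(N : ℝ))) := by
        apply ENNReal.ofReal_le_ofReal
        apply Real.exp_le_exp.mpr
        have : (N : ℝ) ≤ M := by exact_mod_cast (by omega : N ≤ M)
        linarith

end Pool.Agent.V5helper43.ET
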