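import Mathlib

set_option autoImplicit false

namespace Pool.Agent.V5helper43.ET

open Finset

/-- If the partial sums of `D` up to `4^I` are at least `c 2^I √H`, then the sum of squares up to
`4^m` is at least `(m+1) c² H / 3`. -/
lemma sum_sq_lower (D : ℕ → ℝ) (c H : ℝ) (hc : 0 ≤ c) (hH : 0 < H) (m : ℕ)
    (h : ∀ I ≤ m, c * 2 ^ I * Real.sqrt H ≤ ∑ l ∈ range (4 ^ I), D l) :
    (m + 1) * c ^ 2 * H / 3 ≤ ∑ l ∈ range (4 ^ m), D l ^ 2 := by
  -- stronger inductive statement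
  have key : ∀ I ≤ m, I * c ^ 2 * H / 3 + (∑ l ∈ range (4 ^ I), D l) ^ 2 / (3 * 4 ^ I)
      ≤ ∑ l ∈ range (4 ^ I), D l ^ 2 := by
    intro I
    induction I with
    | zero =>
      intro _
      simp only [Nat.cast_zero, zero_mul, zero_div, zero_add, pow_zero, mul_one, range_one,
        sum_singleton]
      have := sq_nonneg (D 0)
      linarith
    | succ I ih =>
      intro hI
      have ih' := ih (by omega)
      set U := ∑ l ∈ range (4 ^ I), D l with hU
      set U' := ∑ l ∈ range (4 ^ (I + 1)), D l with hU'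
      have hle : 4 ^ I ≤ 4 ^ (I + 1) := Nat.pow_le_pow_right (by norm_num) (by omega)
      have hsplit : U' = U + ∑ l ∈ Ico (4 ^ I) (4 ^ (I + 1)), D l := by
        rw [hU, hU', Finset.sum_range_add_sum_Ico _ hle]
      have hsplit2 : ∑ l ∈ range (4 ^ (I + 1)), D l ^ 2
          = ∑ l ∈ range (4 ^ I), D l ^ 2 + ∑ l ∈ Ico (4 ^ I) (4 ^ (I + 1)), D l ^ 2 := by
        rw [Finset.sum_range_add_sum_Ico _ hle]
      have hcs : (U' - U) ^ 2 ≤ (3 * 4 ^ I) * ∑ l ∈ Ico (4 ^ I) (4 ^ (I + 1)), D l ^ 2 := by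
        have h1 : U' - U = ∑ l ∈ Ico (4 ^ I) (4 ^ (I + 1)), D l := by rw [hsplit]; ring
        rw [h1]
        have h2 := sq_sum_le_card_mul_sum_sq (s := Ico (4 ^ I) (4 ^ (I + 1))) (f := D)
        have h3 : ((Ico (4 ^ I) (4 ^ (I + 1))).card : ℝ) = 3 * 4 ^ I := by
          rw [Nat.card_Ico, Nat.cast_sub hle]
          push_cast
          ring
        rw [h3] at h2
        exact h2
      have hlow : c * 2 ^ (I + 1) * Real.sqrt H ≤ U' := h (I + 1) hI
      have hlow2 : c ^ 2 * (4 * 4 ^ I) * H ≤ U' ^ 2 := by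
        have h0 : 0 ≤ c * 2 ^ (I + 1) * Real.sqrt H := by positivity
        have h1 : (c * 2 ^ (I + 1) * Real.sqrt H) ^ 2 ≤ U' ^ 2 := pow_le_pow_left₀ h0 hlow 2
        have hp : ((2 : ℝ) ^ (I + 1)) ^ 2 = 4 * 4 ^ I := by
          rw [← pow_mul, mul_comm (I + 1) 2, pow_mul, pow_succ]
          norm_num
          ring
        have h2 : (c * 2 ^ (I + 1) * Real.sqrt H) ^ 2 = c ^ 2 * (4 * 4 ^ I) * H := by
          rw [mul_pow, mul_pow, Real.sq_sqrt hH.le, hp]
        rw [h2] at h1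
        exact h1
      rw [hsplit2]
      have h4 : (0 : ℝ) < 3 * 4 ^ I := by positivity
      have h5 : (U' - U) ^ 2 / (3 * 4 ^ I) ≤ ∑ l ∈ Ico (4 ^ I) (4 ^ (I + 1)), D l ^ 2 := by
        rw [div_le_iff₀ h4, mul_comm]
        exact hcs
      have h6 : (I + 1 : ℕ) * c ^ 2 * H / 3 + U' ^ 2 / (3 * 4 ^ (I + 1))
          ≤ (I * c ^ 2 * H / 3 + U ^ 2 / (3 * 4 ^ I)) + (U' - U) ^ 2 / (3 * 4 ^ I) := by
        have h7 : c ^ 2 * H ≤ U' ^ 2 / (4 * 4 ^ I) := by
          rw [le_div_iff₀ (by positivity)]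
          linarith
        have h8 : U' ^ 2 / (3 * 4 ^ (I + 1)) = (U' ^ 2 / (4 * 4 ^ I)) / 3 := by
          rw [pow_succ (4 : ℝ) I]
          field_simp
        have h9 : U ^ 2 / (3 * 4 ^ I) + (U' - U) ^ 2 / (3 * 4 ^ I)
            ≥ 2 * (U' ^ 2 / (4 * 4 ^ I)) / 3 := by
          rw [← add_div, ge_iff_le, div_le_div_iff₀ (by norm_num) h4]
          have h10 : 2 * (U' ^ 2 / (4 * 4 ^ I)) * (3 * 4 ^ I) = 3 / 2 * U' ^ 2 := by
            field_simp
            ring
          rw [h10]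
          nlinarith [sq_nonneg (2 * U - U')]
        push_cast
        rw [h8]
        have h11 : ((I : ℝ) + 1) * c ^ 2 * H / 3 = I * c ^ 2 * H / 3 + c ^ 2 * H / 3 := by ring
        rw [h11]
        linarith
      linarith
  have h1 := key m le_rfl
  have h2 := h m le_rfl
  have h3 : c ^ 2 * 4 ^ m * H ≤ (∑ l ∈ range (4 ^ m), D l) ^ 2 := by
    have h0 : 0 ≤ c * 2 ^ m * Real.sqrt H := by positivity
    have h1 := pow_le_pow_left₀ h0 h2 2
    have h2 : (c * 2 ^ m * Real.sqrt H) ^ 2 = c ^ 2 * 4 ^ m * H := by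
      rw [mul_pow, mul_pow, Real.sq_sqrt hH.le, ← pow_mul, mul_comm m 2, pow_mul]
      norm_num
    rw [h2] at h1
    exact h1
  have h4 : c ^ 2 * H / 3 ≤ (∑ l ∈ range (4 ^ m), D l) ^ 2 / (3 * 4 ^ m) := by
    rw [div_le_div_iff₀ (by norm_num) (by positivity)]
    linarith
  have h5 : ((m : ℝ) + 1) * c ^ 2 * H / 3 = m * c ^ 2 * H / 3 + c ^ 2 * H / 3 := by ring
  rw [h5]
  linarith

/-- the number of ordered representations of `n` by elements of the finite set `F` -/
def repF (F : Finset ℕ) (n : ℕ) : ℕ := ((F ×ˢ F).filter (fun p => p.1 + p.2 = n)).card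

/-- ordered pairs of different elements of `F` at distance less than `H` -/
def closeP (F : Finset ℕ) (H : ℕ) : Finset (ℕ × ℕ) :=
  (F ×ˢ F).filter (fun p => p.1 ≠ p.2 ∧ p.1 < p.2 + H ∧ p.2 < p.1 + H)

lemma mem_closeP {F : Finset ℕ} {H : ℕ} {p : ℕ × ℕ} :
    p ∈ closeP F H ↔ (p.1 ∈ F ∧ p.2 ∈ F) ∧ p.1 ≠ p.2 ∧ p.1 < p.2 + H ∧ p.2 < p.1 + H := by
  simp [closeP]

/-- pairs of close pairs with the same difference -/
def sameDiff (F : Finset ℕ) (H : ℕ) : Finset ((ℕ × ℕ) × (ℕ × ℕ)) :=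
  (closeP F H ×ˢ closeP F H).filter (fun x => x.1.1 + x.2.2 = x.1.2 + x.2.1)

lemma closeP_sq_le (F : Finset ℕ) (H : ℕ) :
    (closeP F H).card ^ 2 ≤ (2 * H) * (sameDiff F H).card := by
  classical
  have hmap : ∀ p ∈ closeP F H, p.1 + H - p.2 ∈ range (2 * H) := by
    intro p hp
    rw [mem_closeP] at hp
    rw [mem_range]
    omega
  have h1 := Finset.card_eq_sum_card_fiberwise (f := fun p : ℕ × ℕ => p.1 + H - p.2)
    (s := closeP F H) (t := range (2 * H)) hmap
  have h2 := sq_sum_le_card_mul_sum_sq (s := range (2 * H))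
    (f := fun d => ((closeP F H).filter (fun p => p.1 + H - p.2 = d)).card)
  rw [← h1, card_range] at h2
  refine le_trans h2 (Nat.mul_le_mul_left _ ?_)
  have hmap2 : ∀ x ∈ sameDiff F H, x.1.1 + H - x.1.2 ∈ range (2 * H) := by
    intro x hx
    exact hmap x.1 (mem_product.mp (mem_filter.mp hx).1).1
  rw [Finset.card_eq_sum_card_fiberwise (f := fun x : (ℕ × ℕ) × (ℕ × ℕ) => x.1.1 + H - x.1.2)
    (s := sameDiff F H) (t := range (2 * H)) hmap2]
  apply Finset.sum_le_sum
  intro d _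
  rw [sq, ← card_product]
  apply Finset.card_le_card
  rintro ⟨p, q⟩ hpq
  simp only [mem_product, mem_filter] at hpq
  obtain ⟨⟨hp, hpd⟩, hq, hqd⟩ := hpq
  have hp' := mem_closeP.mp hp
  have hq' := mem_closeP.mp hq
  simp only [sameDiff, mem_filter, mem_product]
  refine ⟨⟨⟨hp, hq⟩, ?_⟩, hpd⟩
  omega

lemma sameDiff_le (F : Finset ℕ) (H N : ℕ) (hF : ∀ x ∈ F, 2 * x < N) :
    (sameDiff F H).card ≤ 3 * (closeP F H).card
      + ∑ n ∈ (range N).filter (fun n => 4 ≤ repF F n), (repF F n) ^ 2 := by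
  classical
  set E := sameDiff F H with hE
  set E1 := E.filter (fun x => x.1.1 = x.2.1) with hE1
  set E2 := E.filter (fun x => x.1.1 = x.2.2) with hE2
  set E3 := E.filter (fun x => x.1.2 = x.2.1) with hE3
  set Q := E.filter (fun x => x.1.1 ≠ x.2.1 ∧ x.1.1 ≠ x.2.2 ∧ x.1.2 ≠ x.2.1) with hQ
  have hmemE : ∀ x, x ∈ E ↔ (x.1 ∈ closeP F H ∧ x.2 ∈ closeP F H)
      ∧ x.1.1 + x.2.2 = x.1.2 + x.2.1 := by
    intro x; simp [hE, sameDiff]
  have hsub : E ⊆ E1 ∪ E2 ∪ E3 ∪ Q := by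
    intro x hx
    simp only [mem_union, hE1, hE2, hE3, hQ, mem_filter, hx, true_and]
    by_cases h1 : x.1.1 = x.2.1
    · exact Or.inl (Or.inl (Or.inl h1))
    · by_cases h2 : x.1.1 = x.2.2
      · exact Or.inl (Or.inl (Or.inr h2))
      · by_cases h3 : x.1.2 = x.2.1
        · exact Or.inl (Or.inr h3)
        · exact Or.inr ⟨h1, h2, h3⟩
  have hc1 : E1.card ≤ (closeP F H).card := by
    apply Finset.card_le_card_of_injOn (fun x => x.1)
    · intro x hx
      have hx' := (mem_filter.mp hx).1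
      exact ((hmemE x).mp hx').1.1
    · rintro ⟨⟨a, a'⟩, b, b'⟩ hx ⟨⟨c, c'⟩, d, d'⟩ hy hxy
      have h1 := mem_filter.mp hx
      have h2 := mem_filter.mp hy
      have h3 := (hmemE _).mp h1.1
      have h4 := (hmemE _).mp h2.1
      simp only [Prod.mk.injEq] at hxy h1 h2 h3 h4 ⊢
      refine ⟨hxy, ?_, ?_⟩ <;> omega
  have hc2 : E2.card ≤ (closeP F H).card := by
    apply Finset.card_le_card_of_injOn (fun x => x.1)
    · intro x hx
      have hx' := (mem_filter.mp hx).1
      exact ((hmemE x).mp hx').1.1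
    · rintro ⟨⟨a, a'⟩, b, b'⟩ hx ⟨⟨c, c'⟩, d, d'⟩ hy hxy
      have h1 := mem_filter.mp hx
      have h2 := mem_filter.mp hy
      have h3 := (hmemE _).mp h1.1
      have h4 := (hmemE _).mp h2.1
      simp only [Prod.mk.injEq] at hxy h1 h2 h3 h4 ⊢
      refine ⟨hxy, ?_, ?_⟩ <;> omega
  have hc3 : E3.card ≤ (closeP F H).card := by
    apply Finset.card_le_card_of_injOn (fun x => x.1)
    · intro x hx
      have hx' := (mem_filter.mp hx).1
      exact ((hmemE x).mp hx').1.1
    · rintro ⟨⟨a, a'⟩, b, b'⟩ hx ⟨⟨c, c'⟩, d, d'⟩ hy hxy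
      have h1 := mem_filter.mp hx
      have h2 := mem_filter.mp hy
      have h3 := (hmemE _).mp h1.1
      have h4 := (hmemE _).mp h2.1
      simp only [Prod.mk.injEq] at hxy h1 h2 h3 h4 ⊢
      refine ⟨hxy, ?_, ?_⟩ <;> omega
  have hcQ : Q.card ≤ ∑ n ∈ (range N).filter (fun n => 4 ≤ repF F n), (repF F n) ^ 2 := by
    have hmap : ∀ x ∈ Q, x.1.1 + x.2.2 ∈ (range N).filter (fun n => 4 ≤ repF F n) := by
      rintro ⟨⟨a, a'⟩, b, b'⟩ hx
      have h1 := mem_filter.mp hx
      have h3 := (hmemE _).mp h1.1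
      simp only [mem_closeP] at h1 h3
      obtain ⟨⟨⟨⟨ha, ha'⟩, hne, hlt, hlt'⟩, ⟨hb, hb'⟩, hne', _, _⟩, hsum⟩ := h3
      obtain ⟨_, hab, hab', ha'b⟩ := h1
      have hFa := hF a ha
      have hFb' := hF b' hb'
      rw [mem_filter, mem_range]
      refine ⟨by simp only; omega, ?_⟩
      unfold repF
      have hfour : ({(a, b'), (b', a), (a', b), (b, a')} : Finset (ℕ × ℕ)).card = 4 := by
        rw [card_insert_of_notMem, card_insert_of_notMem, card_insert_of_notMem, card_singleton]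
        · simp only [mem_singleton, Prod.mk.injEq, not_and]
          intro h; omega
        · simp only [mem_insert, mem_singleton, Prod.mk.injEq, not_or, not_and]
          constructor <;> intro h <;> omega
        · simp only [mem_insert, mem_singleton, Prod.mk.injEq, not_or, not_and]
          refine ⟨?_, ?_, ?_⟩ <;> intro h <;> omega
      rw [← hfour]
      apply Finset.card_le_card
      intro p hp
      simp only [mem_insert, mem_singleton] at hp
      simp only [mem_filter, mem_product]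
      rcases hp with rfl | rfl | rfl | rfl
      · exact ⟨⟨ha, hb'⟩, rfl⟩
      · exact ⟨⟨hb', ha⟩, by simp only; omega⟩
      · exact ⟨⟨ha', hb⟩, by simp only; omega⟩
      · exact ⟨⟨hb, ha'⟩, by simp only; omega⟩
    rw [Finset.card_eq_sum_card_fiberwise hmap]
    apply Finset.sum_le_sum
    intro n _
    unfold repF
    rw [sq, ← card_product]
    apply Finset.card_le_card_of_injOn (fun x => ((x.1.1, x.2.2), (x.1.2, x.2.1)))
    · rintro ⟨⟨a, a'⟩, b, b'⟩ hx
      have h0 := mem_filter.mp hx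
      have h1 := mem_filter.mp h0.1
      have h3 := (hmemE _).mp h1.1
      simp only [mem_closeP] at h3
      have h4 := h0.2
      simp only [mem_coe, mem_product, mem_filter]
      simp only at h4
      refine ⟨⟨⟨h3.1.1.1.1, h3.1.2.1.2⟩, h4⟩, ⟨h3.1.1.1.2, h3.1.2.1.1⟩, ?_⟩
      have := h3.2
      omega
    · rintro ⟨⟨a, a'⟩, b, b'⟩ _ ⟨⟨c, c'⟩, d, d'⟩ _ hxy
      simp only [Prod.mk.injEq] at hxy ⊢
      exact ⟨⟨hxy.1.1, hxy.2.1⟩, hxy.2.2, hxy.1.2⟩
  have h1 : E.card ≤ (E1 ∪ E2 ∪ E3 ∪ Q).card := Finset.card_le_card hsub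
  have h2 := Finset.card_union_le (E1 ∪ E2 ∪ E3) Q
  have h3 := Finset.card_union_le (E1 ∪ E2) E3
  have h4 := Finset.card_union_le E1 E2
  omega

/-- number of elements of `F` in the `l`-th interval of length `H` -/
def cell (F : Finset ℕ) (H l : ℕ) : ℕ := (F.filter (fun x => x / H = l)).card

lemma sum_cell (F : Finset ℕ) (H L : ℕ) (hH : 0 < H) :
    ∑ l ∈ range L, cell F H l = (F.filter (fun x => x < L * H)).card := by
  have hmap : ∀ x ∈ F.filter (fun x => x < L * H), x / H ∈ range L := by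
    intro x hx
    rw [mem_range, Nat.div_lt_iff_lt_mul hH]
    exact (mem_filter.mp hx).2
  rw [Finset.card_eq_sum_card_fiberwise hmap]
  apply Finset.sum_congr rfl
  intro l hl
  unfold cell
  congr 1
  ext x
  simp only [mem_filter, mem_range] at hl ⊢
  constructor
  · rintro ⟨hx, hxl⟩
    refine ⟨⟨hx, ?_⟩, hxl⟩
    rw [← Nat.div_lt_iff_lt_mul hH, hxl]
    exact hl
  · rintro ⟨⟨hx, _⟩, hxl⟩
    exact ⟨hx, hxl⟩

lemma sum_cell_sq_le (F : Finset ℕ) (H L : ℕ) (hH : 0 < H) :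
    ∑ l ∈ range L, cell F H l ^ 2 ≤ (closeP F H).card + F.card := by
  classical
  set S := (F ×ˢ F).filter (fun p => p.1 / H = p.2 / H) with hS
  have h1 : ∑ l ∈ range L, cell F H l ^ 2 ≤ S.card := by
    have : ∀ l ∈ range L, cell F H l ^ 2 = (S.filter (fun p => p.1 / H = l)).card := by
      intro l _
      unfold cell
      rw [sq, ← card_product]
      congr 1
      ext p
      simp only [hS, mem_product, mem_filter]
      constructor
      · rintro ⟨⟨h1, h2⟩, h3, h4⟩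
        exact ⟨⟨⟨h1, h3⟩, by omega⟩, h2⟩
      · rintro ⟨⟨⟨h1, h2⟩, h3⟩, h4⟩
        exact ⟨⟨h1, h4⟩, h2, by omega⟩
    rw [Finset.sum_congr rfl this, ← Finset.card_biUnion]
    · apply Finset.card_le_card
      intro p hp
      rw [mem_biUnion] at hp
      obtain ⟨l, _, hp⟩ := hp
      exact (mem_filter.mp hp).1
    · intro a _ b _ hab
      simp only [Function.onFun]
      rw [Finset.disjoint_left]
      intro p hp hq
      exact hab ((mem_filter.mp hp).2.symm.trans (mem_filter.mp hq).2)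
  have h2 : S ⊆ closeP F H ∪ F.image (fun x => (x, x)) := by
    rintro ⟨a, b⟩ hp
    simp only [hS, mem_filter, mem_product] at hp
    obtain ⟨⟨ha, hb⟩, hab⟩ := hp
    rw [mem_union]
    by_cases h : a = b
    · right
      rw [mem_image]
      exact ⟨a, ha, by rw [h]⟩
    · left
      rw [mem_closeP]
      refine ⟨⟨ha, hb⟩, h, ?_, ?_⟩
      · have h3 := Nat.div_add_mod a H
        have h4 := Nat.mod_lt a hH
        have h5 := Nat.div_add_mod b H
        simp only
        rw [hab] at h3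
        omega
      · have h3 := Nat.div_add_mod a H
        have h4 := Nat.mod_lt b hH
        have h5 := Nat.div_add_mod b H
        simp only
        rw [hab] at h3
        omega
  calc ∑ l ∈ range L, cell F H l ^ 2 ≤ S.card := h1
    _ ≤ (closeP F H ∪ F.image (fun x => (x, x))).card := card_le_card h2
    _ ≤ (closeP F H).card + (F.image (fun x => (x, x))).card := card_union_le _ _
    _ ≤ (closeP F H).card + F.card := Nat.add_le_add_left card_image_le _

end Pool.Agent.V5helper43.ET
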