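import Mathlib
import Pool.Agent.V5helper43.ET.Close
import Pool.Agent.V5helper43.ET.Shifts

set_option autoImplicit false

namespace Pool.Agent.V5helper43.ET

open Finset

/-- many close pairs, hence many numbers with two essentially different representations -/
theorem close_main (F : Finset ℕ) (H m N : ℕ) (c : ℝ) (hc : 0 ≤ c) (hH : 0 < H)
    (hHM : 9 * 4 ^ m ≤ H) (hF : ∀ x ∈ F, x < 4 ^ m * H) (hN : ∀ x ∈ F, 2 * x < N)
    (hm : 9 ≤ (m + 1) * c ^ 2 / 3)
    (hlow : ∀ I ≤ m, c * 2 ^ I * Real.sqrt H ≤ ((F.filter (fun x => x < 4 ^ I * H)).card : ℝ)) :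
    8 * H ≤ ∑ n ∈ (range N).filter (fun n => 4 ≤ repF F n), (repF F n) ^ 2 := by
  have hHr : (0 : ℝ) < H := by exact_mod_cast hH
  have h1 := sum_sq_lower (fun l => (cell F H l : ℝ)) c H hc hHr m (by
    intro I hI
    have h2 := sum_cell F H (4 ^ I) hH
    have h3 : ∑ l ∈ range (4 ^ I), (cell F H l : ℝ) = ((F.filter (fun x => x < 4 ^ I * H)).card : ℝ) := by
      exact_mod_cast h2
    rw [h3]
    exact hlow I hI)
  have h2 := sum_cell_sq_le F H (4 ^ m) hH
  have h2' : ∑ l ∈ range (4 ^ m), (cell F H l : ℝ) ^ 2 ≤ (closeP F H).card + F.card := by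
    exact_mod_cast h2
  have h9 : (9 : ℝ) * H ≤ (closeP F H).card + F.card := by
    calc (9 : ℝ) * H ≤ ((m + 1) * c ^ 2 / 3) * H := mul_le_mul_of_nonneg_right hm hHr.le
      _ = (m + 1) * c ^ 2 * H / 3 := by ring
      _ ≤ _ := h1
      _ ≤ _ := h2'
  have h9' : 9 * H ≤ (closeP F H).card + F.card := by exact_mod_cast h9
  have hP : 8 * H ≤ (closeP F H).card := by
    by_cases hFH : F.card ≤ H
    · omega
    · push Not at hFH
      have h3 := sum_cell F H (4 ^ m) hH
      have h4 : F.filter (fun x => x < 4 ^ m * H) = F := by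
        rw [Finset.filter_eq_self]
        exact hF
      rw [h4] at h3
      have h5 := sq_sum_le_card_mul_sum_sq (s := range (4 ^ m)) (f := fun l => cell F H l)
      rw [h3, card_range] at h5
      have h6 : F.card ^ 2 ≤ 4 ^ m * ((closeP F H).card + F.card) :=
        le_trans h5 (Nat.mul_le_mul_left _ h2)
      have h7 : 9 * 4 ^ m ≤ F.card := by omega
      have h8 : 4 ^ m * (9 * F.card) ≤ 4 ^ m * ((closeP F H).card + F.card) := by
        calc 4 ^ m * (9 * F.card) = (9 * 4 ^ m) * F.card := by ring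
          _ ≤ F.card * F.card := Nat.mul_le_mul_right _ h7
          _ = F.card ^ 2 := by ring
          _ ≤ _ := h6
      have h10 := Nat.le_of_mul_le_mul_left h8 (by positivity)
      omega
  have h3 := closeP_sq_le F H
  have h4 := sameDiff_le F H N hN
  set P := (closeP F H).card with hPdef
  set S := ∑ n ∈ (range N).filter (fun n => 4 ≤ repF F n), (repF F n) ^ 2 with hS
  have h5 : P ^ 2 ≤ (2 * H) * (3 * P + S) := le_trans h3 (Nat.mul_le_mul_left _ h4)
  have h6 : P ≤ S := by
    by_contra hcon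
    push Not at hcon
    have h7 : (2 * H) * (3 * P + S) < (2 * H) * (4 * P) := by
      apply Nat.mul_lt_mul_of_pos_left _ (by positivity)
      omega
    have h8 : (8 * H) * P ≤ P ^ 2 := by
      rw [sq]
      exact Nat.mul_le_mul_right _ hP
    have h10 : (2 * H) * (4 * P) = (8 * H) * P := by ring
    omega
  omega

lemma repF_le_rep (A : Set ℕ) (F : Finset ℕ) (hF : ∀ x ∈ F, x ∈ A) (n : ℕ) :
    repF F n ≤ rep A n := by
  unfold repF rep
  rw [← Set.ncard_coe_finset]
  apply Set.ncard_le_ncard _ (rep_finite A n)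
  intro p hp
  simp only [mem_coe, mem_filter, mem_product] at hp
  exact ⟨hF _ hp.1.1, hF _ hp.1.2, hp.2⟩

open Classical in
lemma count_lower (A : Set ℕ) (hA : A.Infinite) (C : ℝ) (hC : 0 < C)
    (h : ∀ n : ℕ, (Nat.nth (fun a => a ∈ A) n : ℝ) ≤ C * ((n : ℝ) + 1) ^ 2)
    (x : ℕ) (hx : 4 * C ≤ x) :
    (1 / 2) * Real.sqrt (x / C) ≤ (((range x).filter (fun a => a ∈ A)).card : ℝ) := by
  have h1 := Nat.le_nth_count (p := fun a => a ∈ A) hA x
  rw [Nat.count_eq_card_filter_range] at h1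
  set t := ((range x).filter (fun a => a ∈ A)).card with ht
  have h2 : (x : ℝ) ≤ C * ((t : ℝ) + 1) ^ 2 := le_trans (by exact_mod_cast h1) (h t)
  have h3 : Real.sqrt (x / C) ≤ t + 1 := by
    rw [Real.sqrt_le_left (by positivity), div_le_iff₀ hC]
    linarith
  have h4 : 2 ≤ Real.sqrt (x / C) := by
    apply Real.le_sqrt_of_sq_le
    rw [le_div_iff₀ hC]
    linarith
  linarith

open Classical in
/-- **Two essentially different representations.** -/
theorem two_reps (C : ℝ) (hC : 0 < C) : ∃ δ : ℝ, 0 < δ ∧ ∃ N₀ : ℕ,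
    ∀ A : Set ℕ, A.Infinite →
      (∀ n : ℕ, (Nat.nth (fun a => a ∈ A) n : ℝ) ≤ C * ((n : ℝ) + 1) ^ 2) →
      ∀ N ≥ N₀, δ * N ≤ ∑ n ∈ (range (N + 1)).filter (fun n => 4 ≤ rep A n), (rep A n : ℝ) ^ 2 := by
  obtain ⟨m, hm⟩ := exists_nat_ge (108 * C)
  set M := 4 ^ m with hM
  have hM0 : 0 < M := by positivity
  have hMr : (0 : ℝ) < M := by exact_mod_cast hM0
  obtain ⟨K, hK⟩ := exists_nat_ge (4 * C)
  refine ⟨2 / M, by positivity, 18 * M ^ 2 + 2 * M * K + 4 * M, ?_⟩
  intro A hA hnth N hN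
  set H := N / (2 * M) with hH
  have hHM : 9 * M ≤ H := by
    rw [hH, Nat.le_div_iff_mul_le (by positivity)]
    nlinarith
  have hHK : K ≤ H := by
    rw [hH, Nat.le_div_iff_mul_le (by positivity)]
    nlinarith
  have hH0 : 0 < H := by omega
  have hHr : (0 : ℝ) < H := by exact_mod_cast hH0
  have hHN : 2 * (M * H) ≤ N := by
    calc 2 * (M * H) = (2 * M) * H := by ring
      _ ≤ N := Nat.mul_div_le N (2 * M)
  set F := (range (M * H)).filter (fun a => a ∈ A) with hF
  have hmain := close_main F H m N (1 / (2 * Real.sqrt C)) (by positivity) hH0 hHM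
    (fun x hx => mem_range.mp (mem_filter.mp hx).1)
    (fun x hx => by
      have := mem_range.mp (mem_filter.mp hx).1
      omega)
    (by
      rw [div_pow, mul_pow, Real.sq_sqrt hC.le]
      have h1 : ((m : ℝ) + 1) * (1 ^ 2 / (2 ^ 2 * C)) / 3 = (m + 1) / (12 * C) := by
        field_simp
        ring
      rw [h1, le_div_iff₀ (by positivity)]
      linarith)
    (by
      intro I hI
      have hle : 4 ^ I * H ≤ M * H :=
        Nat.mul_le_mul_right _ (Nat.pow_le_pow_right (by norm_num) hI)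
      have h1 : F.filter (fun x => x < 4 ^ I * H) = (range (4 ^ I * H)).filter (fun a => a ∈ A) := by
        ext x
        simp only [hF, mem_filter, mem_range]
        constructor
        · rintro ⟨⟨_, h2⟩, h3⟩
          exact ⟨h3, h2⟩
        · rintro ⟨h3, h2⟩
          exact ⟨⟨lt_of_lt_of_le h3 hle, h2⟩, h3⟩
      rw [h1]
      have h2 : 4 * C ≤ ((4 ^ I * H : ℕ) : ℝ) := by
        have h3 : (K : ℝ) ≤ ((4 ^ I * H : ℕ) : ℝ) := by
          have : H ≤ 4 ^ I * H := Nat.le_mul_of_pos_left _ (by positivity)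
          exact_mod_cast le_trans hHK this
        linarith
      have h3 := count_lower A hA C hC hnth (4 ^ I * H) h2
      refine le_trans (le_of_eq ?_) h3
      push_cast
      rw [Real.sqrt_div' _ hC.le, Real.sqrt_mul (by positivity)]
      have h4 : Real.sqrt ((4 : ℝ) ^ I) = 2 ^ I := by
        rw [show (4 : ℝ) ^ I = (2 ^ I) ^ 2 by rw [← pow_mul, mul_comm I 2, pow_mul]; norm_num]
        exact Real.sqrt_sq (by positivity)
      rw [h4]
      have h5 : Real.sqrt C ≠ 0 := by positivity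
      field_simp)
  have hsum : ∑ n ∈ (range N).filter (fun n => 4 ≤ repF F n), (repF F n) ^ 2
      ≤ ∑ n ∈ (range (N + 1)).filter (fun n => 4 ≤ rep A n), (rep A n) ^ 2 := by
    have hle : ∀ n, repF F n ≤ rep A n := repF_le_rep A F (fun x hx => (mem_filter.mp hx).2)
    refine le_trans (Finset.sum_le_sum (fun n _ => Nat.pow_le_pow_left (hle n) 2)) ?_
    apply Finset.sum_le_sum_of_subset
    intro n hn
    rw [mem_filter, mem_range] at hn ⊢
    exact ⟨by omega, le_trans hn.2 (hle n)⟩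
  have hfin : ((8 * H : ℕ) : ℝ) ≤ ∑ n ∈ (range (N + 1)).filter (fun n => 4 ≤ rep A n),
      (rep A n : ℝ) ^ 2 := by
    exact_mod_cast le_trans hmain hsum
  refine le_trans ?_ hfin
  -- 2 N / M ≤ 8 H
  have h1 : N < 2 * M * (H + 1) := by
    rw [hH]
    exact Nat.lt_mul_div_succ N (by positivity)
  have h2 : 4 * M ≤ N := by nlinarith
  have h3 : 2 * N ≤ M * (8 * H) := by nlinarith
  rw [div_mul_eq_mul_div, div_le_iff₀ hMr]
  have h4 : (2 : ℝ) * N ≤ M * (8 * H) := by exact_mod_cast h3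
  push_cast
  linarith

end Pool.Agent.V5helper43.ET
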