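import Mathlib
import Pool.Agent.V5helper43.ET.Close
import Pool.Agent.V5helper43.ET.TwoReps

set_option autoImplicit false

/-!
# Monochromatic additive quadruples in sets with `a_n ≤ C n ^ 2`
-/

namespace Pool.Agent.V5helper43.ET

open Finset

/-- the number of pairs of elements of `F` with difference `d` -/
def dF (F : Finset ℕ) (d : ℕ) : ℕ := ((F ×ˢ F).filter (fun p => p.1 = p.2 + d)).card

lemma closeP_card_le (F : Finset ℕ) (H : ℕ) :
    (closeP F H).card ≤ 2 * ∑ d ∈ Ico 1 H, dF F d := by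
  classical
  set P := (closeP F H).filter (fun p => p.2 < p.1) with hP
  set Q := (closeP F H).filter (fun p => p.1 < p.2) with hQ
  have hsub : closeP F H ⊆ P ∪ Q := by
    intro p hp
    have hp' := mem_closeP.mp hp
    rw [mem_union, hP, hQ, mem_filter, mem_filter]
    rcases Nat.lt_or_gt_of_ne hp'.2.1 with h1 | h1
    · exact Or.inr ⟨hp, h1⟩
    · exact Or.inl ⟨hp, h1⟩
  have hPc : P.card ≤ ∑ d ∈ Ico 1 H, dF F d := by
    have hmap : ∀ p ∈ P, p.1 - p.2 ∈ Ico 1 H := by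
      intro p hp
      have h1 := mem_filter.mp hp
      have h2 := mem_closeP.mp h1.1
      rw [mem_Ico]
      omega
    rw [Finset.card_eq_sum_card_fiberwise (f := fun p : ℕ × ℕ => p.1 - p.2) (t := Ico 1 H) hmap]
    refine Finset.sum_le_sum fun d hd => Finset.card_le_card ?_
    intro p hp
    have h1 := mem_filter.mp hp
    have h2 := mem_filter.mp h1.1
    have h3 := mem_closeP.mp h2.1
    rw [mem_filter, mem_product]
    refine ⟨h3.1, by omega⟩
  have hQc : Q.card ≤ ∑ d ∈ Ico 1 H, dF F d := by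
    have hmap : ∀ p ∈ Q, p.2 - p.1 ∈ Ico 1 H := by
      intro p hp
      have h1 := mem_filter.mp hp
      have h2 := mem_closeP.mp h1.1
      rw [mem_Ico]
      omega
    rw [Finset.card_eq_sum_card_fiberwise (f := fun p : ℕ × ℕ => p.2 - p.1) (t := Ico 1 H) hmap]
    refine Finset.sum_le_sum fun d hd => ?_
    apply Finset.card_le_card_of_injOn (fun p => (p.2, p.1))
    · intro p hp
      have h1 := mem_filter.mp hp
      have h2 := mem_filter.mp h1.1
      have h3 := mem_closeP.mp h2.1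
      rw [mem_coe, mem_filter, mem_product]
      refine ⟨⟨h3.1.2, h3.1.1⟩, by simp only; omega⟩
    · rintro ⟨a, b⟩ _ ⟨c, d⟩ _ hab
      simp only [Prod.mk.injEq] at hab ⊢
      exact ⟨hab.2, hab.1⟩
  have h1 := card_le_card hsub
  have h2 := card_union_le P Q
  omega

lemma aux_half {X M a P : ℝ} (hX : 0 ≤ X) (hM : 0 ≤ M) (h1 : X ≤ P + a)
    (h2 : a ^ 2 ≤ M * X) : X / 2 - M / 2 ≤ P := by
  have h3 : a ≤ (X + M) / 2 := by
    by_contra hcon
    push Not at hcon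
    have h4 : ((X + M) / 2) ^ 2 < a ^ 2 := pow_lt_pow_left₀ hcon (by positivity) two_ne_zero
    nlinarith [sq_nonneg (X - M)]
  linarith

/-- the finite form -/
lemma fin_main (F : Finset ℕ) (s : ℕ) (G : Fin s → Finset ℕ) (H m N : ℕ) (c : ℝ) (hs : 1 ≤ s)
    (hc : 0 ≤ c) (hH : 0 < H) (hMH : 4 ^ m ≤ H) (hF : ∀ x ∈ F, x < 4 ^ m * H)
    (hGF : ∀ i, G i ⊆ F) (hcov : ∀ x ∈ F, ∃ i, x ∈ G i) (hN : ∀ x ∈ F, 2 * x < N)
    (hlow : ∀ I ≤ m, c * 2 ^ I * Real.sqrt H ≤ ((F.filter (fun x => x < 4 ^ I * H)).card : ℝ))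
    (hm : 32 * (s : ℝ) ^ 2 ≤ (m + 1) * c ^ 2 / 3) :
    ((m + 1) * c ^ 2 * H / 3) ^ 2 / (128 * s ^ 3 * H) ≤
      ∑ i, ∑ d ∈ Ico 1 H, (dF (G i) d : ℝ) * ((dF (G i) d : ℝ) - 1) ∧
    ((m + 1) * c ^ 2 * H / 3) ^ 2 / (128 * s ^ 3 * H) ≤
      ∑ i, ∑ n ∈ (range N).filter (fun n => 4 ≤ repF (G i) n), (repF (G i) n : ℝ) ^ 2 := by
  have hHr : (0 : ℝ) < H := by exact_mod_cast hH
  have hsr : (1 : ℝ) ≤ s := by exact_mod_cast hs
  have hs0 : (0 : ℝ) < s := by linarith
  obtain ⟨T, hT⟩ : ∃ T : ℝ, T = (m + 1) * c ^ 2 * H / 3 := ⟨_, rfl⟩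
  rw [← hT]
  have hT32 : 32 * (s : ℝ) ^ 2 * H ≤ T := by
    have h1 := mul_le_mul_of_nonneg_right hm hHr.le
    rw [hT]
    calc 32 * (s : ℝ) ^ 2 * H ≤ (m + 1) * c ^ 2 / 3 * H := h1
      _ = _ := by ring
  have hlow' : T ≤ ∑ l ∈ range (4 ^ m), (cell F H l : ℝ) ^ 2 := by
    rw [hT]
    refine sum_sq_lower (fun l => (cell F H l : ℝ)) c H hc hHr m fun I hI => ?_
    have h2 := sum_cell F H (4 ^ I) hH
    have h3 : ∑ l ∈ range (4 ^ I), (cell F H l : ℝ) =
        ((F.filter (fun x => x < 4 ^ I * H)).card : ℝ) := by exact_mod_cast h2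
    rw [h3]
    exact hlow I hI
  have hcell : ∀ l, cell F H l ≤ ∑ i : Fin s, cell (G i) H l := by
    intro l
    unfold cell
    refine le_trans (Finset.card_le_card ?_) Finset.card_biUnion_le
    intro x hx
    have h1 := mem_filter.mp hx
    obtain ⟨i, hi⟩ := hcov x h1.1
    rw [mem_biUnion]
    exact ⟨i, mem_univ _, mem_filter.mpr ⟨hi, h1.2⟩⟩
  have hup : ∑ l ∈ range (4 ^ m), cell F H l ^ 2 ≤
      s * ∑ i : Fin s, ∑ l ∈ range (4 ^ m), cell (G i) H l ^ 2 := by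
    calc ∑ l ∈ range (4 ^ m), cell F H l ^ 2
        ≤ ∑ l ∈ range (4 ^ m), (∑ i : Fin s, cell (G i) H l) ^ 2 :=
          Finset.sum_le_sum fun l _ => Nat.pow_le_pow_left (hcell l) 2
      _ ≤ ∑ l ∈ range (4 ^ m), s * ∑ i : Fin s, cell (G i) H l ^ 2 := by
          apply Finset.sum_le_sum
          intro l _
          have := sq_sum_le_card_mul_sum_sq (s := (Finset.univ : Finset (Fin s)))
            (f := fun i => cell (G i) H l)
          rw [card_univ, Fintype.card_fin] at this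
          exact this
      _ = s * ∑ i : Fin s, ∑ l ∈ range (4 ^ m), cell (G i) H l ^ 2 := by
          rw [← Finset.mul_sum, Finset.sum_comm]
  obtain ⟨X, hX⟩ : ∃ X : Fin s → ℝ, X = fun i => ((∑ l ∈ range (4 ^ m), cell (G i) H l ^ 2 : ℕ) : ℝ) :=
    ⟨_, rfl⟩
  have hXd : ∀ i, X i = ((∑ l ∈ range (4 ^ m), cell (G i) H l ^ 2 : ℕ) : ℝ) := fun i => by rw [hX]
  have hX0 : ∀ i, 0 ≤ X i := fun i => by rw [hXd i]; positivity
  have hTX : T ≤ s * ∑ i, X i := by
    have h1 : (∑ l ∈ range (4 ^ m), (cell F H l : ℝ) ^ 2) ≤ s * ∑ i, X i := by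
      simp only [hXd]
      exact_mod_cast hup
    linarith
  obtain ⟨P, hP⟩ : ∃ P : Fin s → ℝ, P = fun i => ((closeP (G i) H).card : ℝ) := ⟨_, rfl⟩
  have hPd : ∀ i, P i = ((closeP (G i) H).card : ℝ) := fun i => by rw [hP]
  have hP0 : ∀ i, 0 ≤ P i := fun i => by rw [hPd i]; positivity
  have hPi : ∀ i, X i / 2 - H / 2 ≤ P i := by
    intro i
    have e1 : X i ≤ P i + ((G i).card : ℝ) := by
      rw [hXd i, hPd i]
      exact_mod_cast sum_cell_sq_le (G i) H (4 ^ m) hH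
    have e2 : ((G i).card : ℝ) ^ 2 ≤ ((4 ^ m : ℕ) : ℝ) * X i := by
      have h3 := sum_cell (G i) H (4 ^ m) hH
      have h4 : (G i).filter (fun x => x < 4 ^ m * H) = G i := by
        rw [Finset.filter_eq_self]
        exact fun x hx => hF x (hGF i hx)
      rw [h4] at h3
      have h5 := sq_sum_le_card_mul_sum_sq (s := range (4 ^ m)) (f := fun l => cell (G i) H l)
      rw [h3, card_range] at h5
      rw [hXd i]
      exact_mod_cast h5
    have e3 := aux_half (hX0 i) (Nat.cast_nonneg _) e1 e2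
    have e4 : ((4 ^ m : ℕ) : ℝ) ≤ H := by exact_mod_cast hMH
    linarith
  obtain ⟨Q, hQ⟩ : ∃ Q : ℝ, Q = ∑ i, P i := ⟨_, rfl⟩
  have hQT : T / (4 * s) ≤ Q := by
    have e1 : (∑ i, X i) / 2 - s * (H / 2) ≤ Q := by
      rw [hQ]
      calc (∑ i, X i) / 2 - s * (H / 2) = ∑ i : Fin s, (X i / 2 - H / 2) := by
            rw [sum_sub_distrib, ← sum_div, sum_const, card_univ, Fintype.card_fin, nsmul_eq_mul]
        _ ≤ ∑ i, P i := sum_le_sum fun i _ => hPi i
    have e2 : T / s ≤ ∑ i, X i := by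
      rw [div_le_iff₀ hs0]
      linarith
    have e3 : 32 * (s : ℝ) * H ≤ T / s := by
      rw [le_div_iff₀ hs0]
      calc 32 * (s : ℝ) * H * s = 32 * (s : ℝ) ^ 2 * H := by ring
        _ ≤ T := hT32
    have e4 : T / (4 * s) = T / s / 4 := by
      rw [mul_comm, div_div]
    rw [e4]
    have e5 : 0 ≤ (s : ℝ) * H := by positivity
    linarith
  have hQs : 8 * (s : ℝ) * H ≤ Q := by
    refine le_trans ?_ hQT
    rw [le_div_iff₀ (by positivity)]
    calc 8 * (s : ℝ) * H * (4 * s) = 32 * (s : ℝ) ^ 2 * H := by ring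
      _ ≤ T := hT32
  have hT0 : 0 ≤ T := le_trans (by positivity) hT32
  have hQ0 : 0 ≤ Q := le_trans (by positivity) hQs
  have hQ2 : Q ^ 2 ≤ s * ∑ i, P i ^ 2 := by
    have := sq_sum_le_card_mul_sum_sq (s := (Finset.univ : Finset (Fin s))) (f := P)
    rw [card_univ, Fintype.card_fin] at this
    rw [hQ]
    exact this
  have hTQ : T ^ 2 / (128 * s ^ 3 * H) ≤ Q ^ 2 / (8 * s * H) := by
    have e1 : (T / (4 * s)) ^ 2 ≤ Q ^ 2 := pow_le_pow_left₀ (by positivity) hQT 2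
    have e2 : T ^ 2 / (128 * s ^ 3 * H) = (T / (4 * s)) ^ 2 / (8 * s * H) := by
      field_simp
      ring
    rw [e2]
    exact div_le_div_of_nonneg_right e1 (by positivity)
  constructor
  · -- differences
    obtain ⟨p, hp⟩ : ∃ p : Fin s → ℝ, p = fun i => ((∑ d ∈ Ico 1 H, dF (G i) d : ℕ) : ℝ) := ⟨_, rfl⟩
    have hpd : ∀ i, p i = ((∑ d ∈ Ico 1 H, dF (G i) d : ℕ) : ℝ) := fun i => by rw [hp]
    have e1 : ∀ i, P i / 2 ≤ p i := by
      intro i
      have h1 : P i ≤ 2 * p i := by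
        rw [hPd i, hpd i]
        exact_mod_cast closeP_card_le (G i) H
      linarith
    have e2 : ∀ i, p i ^ 2 / H - p i ≤
        ∑ d ∈ Ico 1 H, (dF (G i) d : ℝ) * ((dF (G i) d : ℝ) - 1) := by
      intro i
      have h1 := sq_sum_le_card_mul_sum_sq (s := Ico 1 H) (f := fun d => (dF (G i) d : ℝ))
      have h2 : p i = ∑ d ∈ Ico 1 H, (dF (G i) d : ℝ) := by
        rw [hpd i]
        push_cast
        rfl
      rw [← h2, Nat.card_Ico] at h1
      have h3 : p i ^ 2 ≤ H * ∑ d ∈ Ico 1 H, (dF (G i) d : ℝ) ^ 2 := by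
        refine h1.trans (mul_le_mul_of_nonneg_right ?_ (sum_nonneg fun _ _ => sq_nonneg _))
        exact_mod_cast Nat.sub_le _ _
      have h4 : p i ^ 2 / H ≤ ∑ d ∈ Ico 1 H, (dF (G i) d : ℝ) ^ 2 := by
        rw [div_le_iff₀ hHr]
        linarith
      have h5 : ∑ d ∈ Ico 1 H, (dF (G i) d : ℝ) * ((dF (G i) d : ℝ) - 1) =
          ∑ d ∈ Ico 1 H, (dF (G i) d : ℝ) ^ 2 - p i := by
        rw [h2, ← sum_sub_distrib]
        exact sum_congr rfl fun d _ => by ring
      rw [h5]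
      linarith
    obtain ⟨q, hq⟩ : ∃ q : ℝ, q = ∑ i, p i := ⟨_, rfl⟩
    have e3 : Q / 2 ≤ q := by
      rw [hQ, hq, sum_div]
      exact sum_le_sum fun i _ => e1 i
    have e4 : q ^ 2 / s ≤ ∑ i, p i ^ 2 := by
      have := sq_sum_le_card_mul_sum_sq (s := (Finset.univ : Finset (Fin s))) (f := p)
      rw [card_univ, Fintype.card_fin] at this
      rw [div_le_iff₀ hs0, hq]
      linarith
    have e5 : q ^ 2 / s / H - q ≤
        ∑ i, ∑ d ∈ Ico 1 H, (dF (G i) d : ℝ) * ((dF (G i) d : ℝ) - 1) := by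
      calc q ^ 2 / s / H - q ≤ (∑ i, p i ^ 2) / H - ∑ i, p i := by
            rw [← hq]
            linarith [div_le_div_of_nonneg_right e4 hHr.le]
        _ = ∑ i, (p i ^ 2 / H - p i) := by rw [sum_sub_distrib, sum_div]
        _ ≤ _ := sum_le_sum fun i _ => e2 i
    refine le_trans hTQ (le_trans ?_ e5)
    have e6 : 4 * (s : ℝ) * H ≤ q := by linarith
    have e7 : 0 ≤ q := le_trans (by positivity) e6
    have e8 : Q ^ 2 ≤ 4 * q ^ 2 := by nlinarith
    have e9 : q ≤ q ^ 2 / (4 * s * H) := by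
      rw [le_div_iff₀ (by positivity)]
      nlinarith
    have e10 : q ^ 2 / s / H = 4 * (q ^ 2 / (4 * s * H)) := by
      field_simp
    have e11 : Q ^ 2 / (8 * s * H) ≤ 2 * (q ^ 2 / (4 * s * H)) := by
      rw [div_le_iff₀ (by positivity)]
      have : 2 * (q ^ 2 / (4 * s * H)) * (8 * s * H) = 4 * q ^ 2 := by
        field_simp
        ring
      rw [this]
      exact e8
    have e12 : 0 ≤ q ^ 2 / (4 * s * H) := by positivity
    rw [e10]
    linarith
  · -- sums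
    have e2 : ∀ i, P i ^ 2 / (2 * H) - 3 * P i ≤
        ∑ n ∈ (range N).filter (fun n => 4 ≤ repF (G i) n), (repF (G i) n : ℝ) ^ 2 := by
      intro i
      have h3 := closeP_sq_le (G i) H
      have h4 := sameDiff_le (G i) H N (fun x hx => hN x (hGF i hx))
      have h5 : P i ^ 2 ≤ (2 * H) * (3 * P i +
          ∑ n ∈ (range N).filter (fun n => 4 ≤ repF (G i) n), (repF (G i) n : ℝ) ^ 2) := by
        rw [hPd i]
        have h6 := le_trans h3 (Nat.mul_le_mul_left _ h4)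
        exact_mod_cast h6
      have h7 : P i ^ 2 / (2 * H) ≤ 3 * P i +
          ∑ n ∈ (range N).filter (fun n => 4 ≤ repF (G i) n), (repF (G i) n : ℝ) ^ 2 := by
        rw [div_le_iff₀ (by positivity)]
        linarith
      linarith
    have e4 : Q ^ 2 / s ≤ ∑ i, P i ^ 2 := by
      rw [div_le_iff₀ hs0]
      linarith
    have e5 : Q ^ 2 / s / (2 * H) - 3 * Q ≤
        ∑ i, ∑ n ∈ (range N).filter (fun n => 4 ≤ repF (G i) n), (repF (G i) n : ℝ) ^ 2 := by
      calc Q ^ 2 / s / (2 * H) - 3 * Q ≤ (∑ i, P i ^ 2) / (2 * H) - 3 * ∑ i, P i := by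
            rw [← hQ]
            linarith [div_le_div_of_nonneg_right e4 (show (0 : ℝ) ≤ 2 * H by positivity)]
        _ = ∑ i, (P i ^ 2 / (2 * H) - 3 * P i) := by rw [sum_sub_distrib, sum_div, mul_sum]
        _ ≤ _ := sum_le_sum fun i _ => e2 i
    refine le_trans hTQ (le_trans ?_ e5)
    have e9 : Q ≤ Q ^ 2 / (8 * s * H) := by
      rw [le_div_iff₀ (by positivity)]
      nlinarith
    have e10 : Q ^ 2 / s / (2 * H) = 4 * (Q ^ 2 / (8 * s * H)) := by
      field_simp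
      ring
    rw [e10]
    linarith

end Pool.Agent.V5helper43.ET
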