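import Mathlib
import Pool.Agent.V5helper43.ET.Close
import Pool.Agent.V5helper43.ET.TwoReps

set_option autoImplicit false

namespace Pool.Agent.V5helper43.ET

open Finset

/-- every difference `1 ≤ d < H` occurs at most `g` times in `F` -/
def DiffLe (F : Finset ℕ) (H g : ℕ) : Prop :=
  ∀ d, 1 ≤ d → d < H → ((F ×ˢ F).filter (fun p => p.1 = p.2 + d)).card ≤ g

lemma closeP_le (F : Finset ℕ) (H g : ℕ) (h : DiffLe F H g) : (closeP F H).card ≤ 2 * (g * H) := by
  classical
  set P := (closeP F H).filter (fun p => p.2 < p.1) with hP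
  set Q := (closeP F H).filter (fun p => p.1 < p.2) with hQ
  have hsub : closeP F H ⊆ P ∪ Q := by
    intro p hp
    have hp' := mem_closeP.mp hp
    rw [mem_union, hP, hQ, mem_filter, mem_filter]
    rcases Nat.lt_or_gt_of_ne hp'.2.1 with h1 | h1
    · exact Or.inr ⟨hp, h1⟩
    · exact Or.inl ⟨hp, h1⟩
  have hPc : P.card ≤ g * (range H).card := by
    refine Finset.card_le_mul_card_image_of_maps_to (f := fun p : ℕ × ℕ => p.1 - p.2) ?_ g ?_
    · intro p hp
      have h1 := mem_filter.mp hp
      have h2 := mem_closeP.mp h1.1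
      rw [mem_range]
      omega
    · intro d hd
      by_cases hd0 : d = 0
      · have : P.filter (fun p => p.1 - p.2 = d) = ∅ := by
          rw [Finset.filter_eq_empty_iff]
          intro p hp
          have h1 := mem_filter.mp hp
          omega
        rw [this]
        simp
      · refine le_trans (Finset.card_le_card ?_) (h d (by omega) (mem_range.mp hd))
        intro p hp
        have h1 := mem_filter.mp hp
        have h2 := mem_filter.mp h1.1
        have h3 := mem_closeP.mp h2.1
        rw [mem_filter, mem_product]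
        refine ⟨h3.1, by omega⟩
  have hQc : Q.card ≤ g * (range H).card := by
    refine Finset.card_le_mul_card_image_of_maps_to (f := fun p : ℕ × ℕ => p.2 - p.1) ?_ g ?_
    · intro p hp
      have h1 := mem_filter.mp hp
      have h2 := mem_closeP.mp h1.1
      rw [mem_range]
      omega
    · intro d hd
      by_cases hd0 : d = 0
      · have : Q.filter (fun p => p.2 - p.1 = d) = ∅ := by
          rw [Finset.filter_eq_empty_iff]
          intro p hp
          have h1 := mem_filter.mp hp
          omega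
        rw [this]
        simp
      · refine le_trans ?_ (h d (by omega) (mem_range.mp hd))
        apply Finset.card_le_card_of_injOn (fun p => (p.2, p.1))
        · intro p hp
          have h1 := mem_filter.mp hp
          have h2 := mem_filter.mp h1.1
          have h3 := mem_closeP.mp h2.1
          rw [mem_coe, mem_filter, mem_product]
          refine ⟨⟨h3.1.2, h3.1.1⟩, by simp only; omega⟩
        · rintro ⟨a, b⟩ _ ⟨c, d⟩ _ hab
          simp only [Prod.mk.injEq] at hab ⊢
          exact ⟨hab.2, hab.1⟩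
  rw [card_range] at hPc hQc
  have h1 := card_le_card hsub
  have h2 := card_union_le P Q
  omega

/-- the sum of the squares of the cell counts of a set in which small differences are rare -/
lemma cells_le (F : Finset ℕ) (H M g : ℕ) (hg : 1 ≤ g) (hH : 0 < H) (hMH : M ≤ H)
    (hF : ∀ x ∈ F, x < M * H) (h : DiffLe F H g) :
    ∑ l ∈ range M, cell F H l ^ 2 ≤ 5 * g * H := by
  have h1 := sum_cell_sq_le F H M hH
  have h2 := closeP_le F H g h
  have h3 := sum_cell F H M hH
  have h4 : F.filter (fun x => x < M * H) = F := by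
    rw [Finset.filter_eq_self]
    exact hF
  rw [h4] at h3
  have h5 := sq_sum_le_card_mul_sum_sq (s := range M) (f := fun l => cell F H l)
  rw [h3, card_range] at h5
  have h6 : F.card ^ 2 ≤ M * ((closeP F H).card + F.card) :=
    le_trans h5 (Nat.mul_le_mul_left _ h1)
  have h7 : F.card ≤ 3 * (g * H) := by
    by_contra hcon
    push Not at hcon
    have h8 : F.card ^ 2 ≤ H * (2 * F.card) := by
      refine le_trans h6 (Nat.mul_le_mul hMH ?_)
      omega
    have h9 : F.card * F.card ≤ (2 * H) * F.card := by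
      calc F.card * F.card = F.card ^ 2 := by ring
        _ ≤ H * (2 * F.card) := h8
        _ = (2 * H) * F.card := by ring
    have h10 : F.card ≤ 2 * H := Nat.le_of_mul_le_mul_right h9 (by omega)
    have h11 : H ≤ g * H := Nat.le_mul_of_pos_left _ hg
    omega
  calc ∑ l ∈ range M, cell F H l ^ 2 ≤ (closeP F H).card + F.card := h1
    _ ≤ 2 * (g * H) + 3 * (g * H) := Nat.add_le_add h2 h7
    _ = 5 * g * H := by ring

open Classical in
/-- **Covering by sets in which small differences are rare.** -/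
theorem covering_bound (C : ℝ) (hC : 0 < C) : ∃ c : ℝ, 0 < c ∧ ∃ N₀ : ℕ,
    ∀ A : Set ℕ, A.Infinite →
      (∀ n : ℕ, (Nat.nth (fun a => a ∈ A) n : ℝ) ≤ C * ((n : ℝ) + 1) ^ 2) →
      ∀ N ≥ N₀, ∀ s g : ℕ, 1 ≤ g → ∀ S : Fin s → Set ℕ,
        (∀ a ∈ A, a ≤ N → ∃ i, a ∈ S i) →
        (∀ i, ∀ d, 1 ≤ d → d ^ 2 ≤ N →
          {p : ℕ × ℕ | p.1 ∈ S i ∧ p.2 ∈ S i ∧ p.1 ≤ N ∧ p.1 = p.2 + d}.ncard ≤ g) →
        c * Real.log N ≤ g * s ^ 2 := by
  obtain ⟨K, hK⟩ := exists_nat_ge (4 * C)
  refine ⟨1 / (240 * C), by positivity, (16 * (K + 1)) ^ 2, ?_⟩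
  intro A hA hnth N hN s g hg S hcov hdiff
  -- H = sqrt N, M = 4^m ≤ H
  set H := Nat.sqrt N with hH
  have hHK : 16 * (K + 1) ≤ H := by
    rw [hH, Nat.le_sqrt']
    exact hN
  have hH0 : 0 < H := by omega
  have hHN : H ^ 2 ≤ N := Nat.sqrt_le' N
  have hNH : N < (H + 1) ^ 2 := Nat.lt_succ_sqrt' N
  set m := Nat.log 4 H with hm
  have hMH : 4 ^ m ≤ H := Nat.pow_log_le_self 4 (by omega)
  have hHM : H < 4 ^ (m + 1) := Nat.lt_pow_succ_log_self (by norm_num) H
  set M := 4 ^ m with hM
  have hM0 : 0 < M := by positivity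
  have hHr : (0 : ℝ) < H := by exact_mod_cast hH0
  have hMHN : M * H ≤ N := by
    calc M * H ≤ H * H := Nat.mul_le_mul_right _ hMH
      _ = H ^ 2 := by ring
      _ ≤ N := hHN
  set F := (range (M * H)).filter (fun a => a ∈ A) with hF
  let G : Fin s → Finset ℕ := fun i => F.filter (fun a => a ∈ S i)
  have hlow := sum_sq_lower (fun l => (cell F H l : ℝ)) (1 / (2 * Real.sqrt C)) H (by positivity)
    hHr m (by
      intro I hI
      have h2 := sum_cell F H (4 ^ I) hH0
      have h3 : ∑ l ∈ range (4 ^ I), (cell F H l : ℝ)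
          = ((F.filter (fun x => x < 4 ^ I * H)).card : ℝ) := by
        exact_mod_cast h2
      rw [h3]
      have hle : 4 ^ I * H ≤ M * H :=
        Nat.mul_le_mul_right _ (Nat.pow_le_pow_right (by norm_num) hI)
      have h1 : F.filter (fun x => x < 4 ^ I * H) = (range (4 ^ I * H)).filter (fun a => a ∈ A) := by
        ext x
        simp only [hF, mem_filter, mem_range]
        constructor
        · rintro ⟨⟨_, h2⟩, h3⟩
          exact ⟨h3, h2⟩
        · rintro ⟨h3, h2⟩
          exact ⟨⟨lt_of_lt_of_le h3 hle, h2⟩, h3⟩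
      rw [h1]
      have h2 : 4 * C ≤ ((4 ^ I * H : ℕ) : ℝ) := by
        have h3 : (K : ℝ) ≤ ((4 ^ I * H : ℕ) : ℝ) := by
          have : H ≤ 4 ^ I * H := Nat.le_mul_of_pos_left _ (by positivity)
          exact_mod_cast (by omega : K ≤ 4 ^ I * H)
        linarith
      have h3 := count_lower A hA C hC hnth (4 ^ I * H) h2
      refine le_trans (le_of_eq ?_) h3
      push_cast
      rw [Real.sqrt_div' _ hC.le, Real.sqrt_mul (by positivity)]
      have h4 : Real.sqrt ((4 : ℝ) ^ I) = 2 ^ I := by
        rw [show (4 : ℝ) ^ I = (2 ^ I) ^ 2 by rw [← pow_mul, mul_comm I 2, pow_mul]; norm_num]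
        exact Real.sqrt_sq (by positivity)
      rw [h4]
      have h5 : Real.sqrt C ≠ 0 := by positivity
      field_simp)
  -- upper bound
  have hcell : ∀ l, cell F H l ≤ ∑ i : Fin s, cell (G i) H l := by
    intro l
    unfold cell
    refine le_trans (Finset.card_le_card ?_) Finset.card_biUnion_le
    intro x hx
    have h1 := mem_filter.mp hx
    have h2 := mem_filter.mp h1.1
    obtain ⟨i, hi⟩ := hcov x h2.2 (le_trans (mem_range.mp h2.1).le hMHN)
    rw [mem_biUnion]
    exact ⟨i, mem_univ _, mem_filter.mpr ⟨mem_filter.mpr ⟨h1.1, hi⟩, h1.2⟩⟩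
  have hG : ∀ i, ∑ l ∈ range M, cell (G i) H l ^ 2 ≤ 5 * g * H := by
    intro i
    apply cells_le (G i) H M g hg hH0 hMH
    · intro x hx
      exact mem_range.mp (mem_filter.mp (mem_filter.mp hx).1).1
    · intro d hd1 hdH
      refine le_trans ?_ (hdiff i d hd1 ?_)
      · rw [← Set.ncard_coe_finset]
        apply Set.ncard_le_ncard
        · rintro ⟨a, b⟩ hp
          simp only [coe_filter, mem_product, Set.mem_ofPred_eq] at hp
          obtain ⟨⟨ha, hb⟩, hab⟩ := hp
          have ha' := mem_filter.mp ha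
          have hb' := mem_filter.mp hb
          have ha'' := mem_range.mp (mem_filter.mp ha'.1).1
          exact ⟨ha'.2, hb'.2, by simp only; omega, hab⟩
        · apply ((Set.finite_Iic N).prod (Set.finite_Iic N)).subset
          rintro ⟨a, b⟩ ⟨_, _, h1, h2⟩
          simp only at h1 h2
          simp only [Set.mem_prod, Set.mem_Iic]
          omega
      · calc d ^ 2 ≤ H ^ 2 := Nat.pow_le_pow_left hdH.le 2
          _ ≤ N := hHN
  have hup : ∑ l ∈ range M, cell F H l ^ 2 ≤ s ^ 2 * (5 * g * H) := by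
    calc ∑ l ∈ range M, cell F H l ^ 2
        ≤ ∑ l ∈ range M, (∑ i : Fin s, cell (G i) H l) ^ 2 :=
          Finset.sum_le_sum fun l _ => Nat.pow_le_pow_left (hcell l) 2
      _ ≤ ∑ l ∈ range M, s * ∑ i : Fin s, cell (G i) H l ^ 2 := by
          apply Finset.sum_le_sum
          intro l _
          have := sq_sum_le_card_mul_sum_sq (s := (Finset.univ : Finset (Fin s)))
            (f := fun i => cell (G i) H l)
          rw [card_univ, Fintype.card_fin] at this
          exact this
      _ = s * ∑ i : Fin s, ∑ l ∈ range M, cell (G i) H l ^ 2 := by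
          rw [← Finset.mul_sum, Finset.sum_comm]
      _ ≤ s * ∑ _i : Fin s, (5 * g * H) :=
          Nat.mul_le_mul_left _ (Finset.sum_le_sum fun i _ => hG i)
      _ = s ^ 2 * (5 * g * H) := by
          rw [sum_const, card_univ, Fintype.card_fin, smul_eq_mul]
          ring
  have hup' : ∑ l ∈ range M, (cell F H l : ℝ) ^ 2 ≤ s ^ 2 * (5 * g * H) := by
    exact_mod_cast hup
  have hfin : ((m : ℝ) + 1) * (1 / (2 * Real.sqrt C)) ^ 2 * H / 3 ≤ s ^ 2 * (5 * g * H) :=
    le_trans hlow hup'
  have hm1 : ((m : ℝ) + 1) / (12 * C) ≤ 5 * (g * s ^ 2) := by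
    rw [div_pow, mul_pow, Real.sq_sqrt hC.le] at hfin
    have h1 : ((m : ℝ) + 1) * (1 ^ 2 / (2 ^ 2 * C)) * H / 3 = ((m + 1) / (12 * C)) * H := by
      field_simp
      ring
    rw [h1] at hfin
    have h2 : (s : ℝ) ^ 2 * (5 * g * H) = (5 * (g * s ^ 2)) * H := by ring
    rw [h2] at hfin
    exact le_of_mul_le_mul_right hfin hHr
  -- log N ≤ 4 (m + 1)
  have hlog : Real.log N ≤ 4 * ((m : ℝ) + 1) := by
    have hN4 : N < 4 ^ (2 * (m + 1)) := by
      have h1 : H + 1 ≤ 4 ^ (m + 1) := hHM
      calc N < (H + 1) ^ 2 := hNH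
        _ ≤ (4 ^ (m + 1)) ^ 2 := Nat.pow_le_pow_left h1 2
        _ = 4 ^ (2 * (m + 1)) := by rw [← pow_mul, mul_comm]
    have hN0 : (0 : ℝ) < N := by
      have : 0 < N := by
        have := Nat.pos_of_ne_zero (by positivity : H ^ 2 ≠ 0)
        omega
      exact_mod_cast this
    have h2 : Real.log N ≤ Real.log ((4 : ℝ) ^ (2 * (m + 1))) := by
      apply Real.log_le_log hN0
      exact_mod_cast hN4.le
    rw [Real.log_pow] at h2
    have h3 : Real.log 4 ≤ 2 := by
      have h4 : Real.log 4 = 2 * Real.log 2 := by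
        rw [show (4 : ℝ) = 2 ^ 2 by norm_num, Real.log_pow]; norm_num
      have := Real.log_two_lt_d9
      linarith
    push_cast at h2
    have h5 : (0 : ℝ) ≤ 2 * ((m : ℝ) + 1) := by positivity
    nlinarith
  rw [div_mul_eq_mul_div, one_mul, div_le_iff₀ (by positivity)]
  rw [div_le_iff₀ (by positivity)] at hm1
  nlinarith

end Pool.Agent.V5helper43.ET
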