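import Mathlib
import Pool.Agent.V5helper43.ET.Mono
import Pool.Agent.V5helper43.ET.Unions

set_option autoImplicit false

/-!
# Monochromatic additive quadruples in sets with `a_n ≤ C n ^ 2`, all scales
-/

namespace Pool.Agent.V5helper43.ET

open Finset

/-- the number of pairs `(x, y)` of elements of `B` with `x ≤ N` and `x - y = d` -/
noncomputable def dif (B : Set ℕ) (N d : ℕ) : ℕ :=
  {p : ℕ × ℕ | p.1 ∈ B ∧ p.2 ∈ B ∧ p.1 ≤ N ∧ p.1 = p.2 + d}.ncard

lemma dF_le_dif (B : Set ℕ) (F : Finset ℕ) (N d : ℕ) (h : ∀ x ∈ F, x ∈ B ∧ x ≤ N) :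
    dF F d ≤ dif B N d := by
  unfold dF dif
  rw [← Set.ncard_coe_finset]
  apply Set.ncard_le_ncard
  · rintro ⟨a, b⟩ hp
    simp only [coe_filter, mem_product, Set.mem_ofPred_eq] at hp
    obtain ⟨⟨ha, hb⟩, hab⟩ := hp
    exact ⟨(h a ha).1, (h b hb).1, (h a ha).2, hab⟩
  · apply ((Set.finite_Iic N).prod (Set.finite_Iic N)).subset
    rintro ⟨a, b⟩ ⟨_, _, h1, h2⟩
    simp only at h1 h2
    simp only [Set.mem_prod, Set.mem_Iic]
    omega

lemma mul_pred_mono {a b : ℕ} (h : a ≤ b) : (a : ℝ) * ((a : ℝ) - 1) ≤ (b : ℝ) * ((b : ℝ) - 1) := by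
  have h1 : (a : ℝ) ≤ b := by exact_mod_cast h
  rcases Nat.eq_zero_or_pos a with h0 | h0
  · subst h0
    rcases Nat.eq_zero_or_pos b with h2 | h2
    · subst h2; simp
    · have h3 : (1 : ℝ) ≤ b := by exact_mod_cast h2
      simp only [Nat.cast_zero, zero_mul]
      exact mul_nonneg (by linarith) (by linarith)
  · have h2 : (1 : ℝ) ≤ a := by exact_mod_cast h0
    nlinarith

open Classical in
/-- **All scales.** -/
theorem all_scales (C : ℝ) (hC : 0 < C) (A : Set ℕ) (hA : A.Infinite)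
    (hnth : ∀ n : ℕ, (Nat.nth (fun a => a ∈ A) n : ℝ) ≤ C * ((n : ℝ) + 1) ^ 2)
    (N H s : ℕ) (hs : 1 ≤ s) (hH : 0 < H) (hNH : N ≤ H ^ 2)
    (hlog : 768 * C * (s : ℝ) ^ 2 ≤ Real.log ((N : ℝ) / H)) (S : Fin s → Set ℕ)
    (hcov : ∀ a ∈ A, a ≤ N → ∃ i, a ∈ S i) :
    H * Real.log ((N : ℝ) / H) ^ 2 / (73728 * C ^ 2 * s ^ 3) ≤
      ∑ i, ∑ d ∈ Ico 1 H, (dif (A ∩ S i) N d : ℝ) * ((dif (A ∩ S i) N d : ℝ) - 1) ∧
    H * Real.log ((N : ℝ) / H) ^ 2 / (73728 * C ^ 2 * s ^ 3) ≤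
      ∑ i, ∑ n ∈ (range (2 * N)).filter (fun n => 4 ≤ rep (A ∩ S i) n),
        (rep (A ∩ S i) n : ℝ) ^ 2 := by
  have hHr : (0 : ℝ) < H := by exact_mod_cast hH
  have hsr : (1 : ℝ) ≤ s := by exact_mod_cast hs
  have hs0 : (0 : ℝ) < s := by linarith
  have hs2 : (1 : ℝ) ≤ (s : ℝ) ^ 2 := one_le_pow₀ hsr
  obtain ⟨L, hL⟩ : ∃ L : ℝ, L = Real.log ((N : ℝ) / H) := ⟨_, rfl⟩
  rw [← hL] at hlog ⊢
  have hL1 : 768 * C ≤ L := by
    refine le_trans ?_ hlog
    nlinarith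
  have hL0 : 0 < L := by nlinarith
  have hNH0 : 0 < (N : ℝ) / H := by
    by_contra hcon
    push Not at hcon
    have h1 : (N : ℝ) / H = 0 := le_antisymm hcon (by positivity)
    rw [h1, Real.log_zero] at hL
    linarith
  have hexp : (N : ℝ) / H = Real.exp L := by rw [hL, Real.exp_log hNH0]
  have hbig : 4 * C + 1 ≤ (N : ℝ) / H := by
    rw [hexp]
    have := Real.add_one_le_exp L
    linarith
  have hHN : H ≤ N := by
    have h1 : (1 : ℝ) ≤ (N : ℝ) / H := by linarith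
    rw [le_div_iff₀ hHr, one_mul] at h1
    exact_mod_cast h1
  have hdiv : 1 ≤ N / H := (Nat.one_le_div_iff hH).2 hHN
  obtain ⟨m, hm⟩ : ∃ m, m = Nat.log 4 (N / H) := ⟨_, rfl⟩
  have hm1 : 4 ^ m ≤ N / H := by rw [hm]; exact Nat.pow_log_le_self 4 (by omega)
  have hm2 : N / H < 4 ^ (m + 1) := by rw [hm]; exact Nat.lt_pow_succ_log_self (by norm_num) _
  have hMN : 4 ^ m * H ≤ N := le_trans (Nat.mul_le_mul_right _ hm1) (Nat.div_mul_le_self N H)
  have hMH : 4 ^ m ≤ H := by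
    refine le_trans hm1 (Nat.div_le_of_le_mul ?_)
    calc N ≤ H ^ 2 := hNH
      _ = H * H := sq H
  have hLm : L ≤ 2 * ((m : ℝ) + 1) := by
    have h1 : N < 4 ^ (m + 1) * H := by
      rwa [Nat.div_lt_iff_lt_mul hH] at hm2
    have h2 : (N : ℝ) / H ≤ (4 : ℝ) ^ (m + 1) := by
      rw [div_le_iff₀ hHr]
      exact_mod_cast h1.le
    have h3 : L ≤ Real.log ((4 : ℝ) ^ (m + 1)) := by
      rw [hL]
      exact Real.log_le_log hNH0 h2
    rw [Real.log_pow] at h3
    have h4 : Real.log 4 ≤ 2 := by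
      have h5 : Real.log 4 = 2 * Real.log 2 := by
        rw [show (4 : ℝ) = 2 ^ 2 by norm_num, Real.log_pow]; norm_num
      have := Real.log_two_lt_d9
      linarith
    push_cast at h3
    have h5 : (0 : ℝ) ≤ (m : ℝ) + 1 := by positivity
    nlinarith
  set F := (range (4 ^ m * H)).filter (fun a => a ∈ A) with hF
  let G : Fin s → Finset ℕ := fun i => F.filter (fun a => a ∈ S i)
  have hcsq : (1 / (2 * Real.sqrt C)) ^ 2 = 1 / (4 * C) := by
    rw [div_pow, mul_pow, Real.sq_sqrt hC.le]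
    norm_num
  have hmain := fin_main F s G H m (2 * N) (1 / (2 * Real.sqrt C)) hs (by positivity) hH hMH
    (fun x hx => mem_range.mp (mem_filter.mp hx).1) (fun i => filter_subset _ _)
    (fun x hx => by
      have h1 := mem_filter.mp hx
      obtain ⟨i, hi⟩ := hcov x h1.2 (le_trans (mem_range.mp h1.1).le hMN)
      exact ⟨i, mem_filter.mpr ⟨hx, hi⟩⟩)
    (fun x hx => by
      have h1 := mem_range.mp (mem_filter.mp hx).1
      omega)
    (by
      intro I hI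
      have hle : 4 ^ I * H ≤ 4 ^ m * H :=
        Nat.mul_le_mul_right _ (Nat.pow_le_pow_right (by norm_num) hI)
      have h1 : F.filter (fun x => x < 4 ^ I * H) = (range (4 ^ I * H)).filter (fun a => a ∈ A) := by
        ext x
        simp only [hF, mem_filter, mem_range]
        constructor
        · rintro ⟨⟨_, h2⟩, h3⟩
          exact ⟨h3, h2⟩
        · rintro ⟨h3, h2⟩
          exact ⟨⟨lt_of_lt_of_le h3 hle, h2⟩, h3⟩
      rw [h1]
      have h2 : 4 * C ≤ ((4 ^ I * H : ℕ) : ℝ) := by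
        have h3 : (H : ℝ) ≤ ((4 ^ I * H : ℕ) : ℝ) := by
          have : H ≤ 4 ^ I * H := Nat.le_mul_of_pos_left _ (by positivity)
          exact_mod_cast this
        have h4 : (N : ℝ) / H ≤ H := by
          rw [div_le_iff₀ hHr]
          calc (N : ℝ) ≤ ((H ^ 2 : ℕ) : ℝ) := by exact_mod_cast hNH
            _ = H * H := by push_cast; ring
        linarith
      have h3 := count_lower A hA C hC hnth (4 ^ I * H) h2
      refine le_trans (le_of_eq ?_) h3
      push_cast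
      rw [Real.sqrt_div' _ hC.le, Real.sqrt_mul (by positivity)]
      have h4 : Real.sqrt ((4 : ℝ) ^ I) = 2 ^ I := by
        rw [show (4 : ℝ) ^ I = (2 ^ I) ^ 2 by rw [← pow_mul, mul_comm I 2, pow_mul]; norm_num]
        exact Real.sqrt_sq (by positivity)
      rw [h4]
      have h5 : Real.sqrt C ≠ 0 := by positivity
      field_simp)
    (by
      rw [hcsq]
      have h1 : ((m : ℝ) + 1) * (1 / (4 * C)) / 3 = (m + 1) / (12 * C) := by
        field_simp
        norm_num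
      rw [h1, le_div_iff₀ (by positivity)]
      nlinarith)
  have hT : H * L ^ 2 / (73728 * C ^ 2 * s ^ 3) ≤
      (((m : ℝ) + 1) * (1 / (2 * Real.sqrt C)) ^ 2 * H / 3) ^ 2 / (128 * s ^ 3 * H) := by
    rw [hcsq]
    have h1 : ((((m : ℝ) + 1) * (1 / (4 * C)) * H / 3) ^ 2 / (128 * s ^ 3 * H)) =
        H * (2 * ((m : ℝ) + 1)) ^ 2 / (73728 * C ^ 2 * s ^ 3) := by
      field_simp
      ring
    rw [h1]
    refine div_le_div_of_nonneg_right ?_ (by positivity)
    exact mul_le_mul_of_nonneg_left (pow_le_pow_left₀ hL0.le hLm 2) hHr.le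
  constructor
  · refine le_trans hT (le_trans hmain.1 ?_)
    refine sum_le_sum fun i _ => sum_le_sum fun d _ => mul_pred_mono ?_
    refine dF_le_dif _ _ _ _ fun x hx => ?_
    have h1 := mem_filter.mp hx
    have h2 := mem_filter.mp h1.1
    exact ⟨⟨h2.2, h1.2⟩, le_trans (mem_range.mp h2.1).le hMN⟩
  · refine le_trans hT (le_trans hmain.2 ?_)
    refine sum_le_sum fun i _ => ?_
    have hle : ∀ n, repF (G i) n ≤ rep (A ∩ S i) n := by
      refine repF_le_rep (A ∩ S i) (G i) fun x hx => ?_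
      have h1 := mem_filter.mp hx
      exact ⟨(mem_filter.mp h1.1).2, h1.2⟩
    calc ∑ n ∈ (range (2 * N)).filter (fun n => 4 ≤ repF (G i) n), (repF (G i) n : ℝ) ^ 2
        ≤ ∑ n ∈ (range (2 * N)).filter (fun n => 4 ≤ repF (G i) n),
            (rep (A ∩ S i) n : ℝ) ^ 2 := by
          refine sum_le_sum fun n _ => pow_le_pow_left₀ (Nat.cast_nonneg _) ?_ 2
          exact_mod_cast hle n
      _ ≤ _ := by
          refine sum_le_sum_of_subset_of_nonneg ?_ fun _ _ _ => by positivity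
          intro n hn
          rw [mem_filter] at hn ⊢
          exact ⟨hn.1, le_trans hn.2 (hle n)⟩

open Classical in
/-- **Positive density.** -/
theorem density (C : ℝ) (hC : 0 < C) (A : Set ℕ) (hA : A.Infinite)
    (hnth : ∀ n : ℕ, (Nat.nth (fun a => a ∈ A) n : ℝ) ≤ C * ((n : ℝ) + 1) ^ 2)
    (N s : ℕ) (hs : 1 ≤ s) (hN : Real.exp ((1536 * C + 3) * (s : ℝ) ^ 2) ≤ N) (S : Fin s → Set ℕ)
    (hcov : ∀ a ∈ A, a ≤ N → ∃ i, a ∈ S i) :
    Real.exp (-(768 * C * (s : ℝ) ^ 2)) * N ≤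
      ∑ i, ∑ n ∈ (range (N + 1)).filter (fun n => 4 ≤ rep (A ∩ S i) n),
        (rep (A ∩ S i) n : ℝ) ^ 2 := by
  have hsr : (1 : ℝ) ≤ s := by exact_mod_cast hs
  have hs0 : (0 : ℝ) < s := by linarith
  have hs2 : (1 : ℝ) ≤ (s : ℝ) ^ 2 := one_le_pow₀ hsr
  obtain ⟨E, hE⟩ : ∃ E : ℝ, E = Real.exp (768 * C * (s : ℝ) ^ 2) := ⟨_, rfl⟩
  have hE0 : 0 < E := by rw [hE]; exact Real.exp_pos _
  have hE1 : 1 ≤ E := by rw [hE]; exact Real.one_le_exp (by positivity)
  have hN16 : 16 * E ^ 2 ≤ N := by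
    refine le_trans ?_ hN
    have h1 : E ^ 2 = Real.exp (1536 * C * (s : ℝ) ^ 2) := by
      rw [hE, ← Real.exp_nat_mul]
      congr 1
      push_cast
      ring
    have h2 : (16 : ℝ) ≤ Real.exp 3 := by
      have h3 : Real.exp 3 = Real.exp 1 ^ 3 := by
        rw [← Real.exp_nat_mul]
        norm_num
      have h4 := Real.exp_one_gt_d9
      have h5 : (2.7 : ℝ) ^ 3 ≤ Real.exp 1 ^ 3 := pow_le_pow_left₀ (by norm_num) (by linarith) 3
      rw [h3]
      norm_num at h5 ⊢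
      linarith
    have h3 : Real.exp 3 ≤ Real.exp (3 * (s : ℝ) ^ 2) := Real.exp_le_exp.2 (by linarith)
    have h4 : Real.exp ((1536 * C + 3) * (s : ℝ) ^ 2) =
        Real.exp (3 * (s : ℝ) ^ 2) * Real.exp (1536 * C * (s : ℝ) ^ 2) := by
      rw [← Real.exp_add]
      congr 1
      ring
    rw [h4, h1]
    exact mul_le_mul_of_nonneg_right (h2.trans h3) (Real.exp_pos _).le
  obtain ⟨N', hN'⟩ : ∃ N', N' = N / 2 := ⟨_, rfl⟩
  have hN'4 : (N : ℝ) ≤ 4 * N' := by
    have h1 : N ≤ 4 * N' := by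
      have h2 : 2 ≤ N := by
        have h3 : (2 : ℝ) ≤ N := by nlinarith
        exact_mod_cast h3
      omega
    exact_mod_cast h1
  have hN'E : 4 * E ^ 2 ≤ N' := by linarith
  obtain ⟨H, hH⟩ : ∃ H : ℕ, H = ⌊(N' : ℝ) / E⌋₊ := ⟨_, rfl⟩
  have hH1 : (H : ℝ) ≤ N' / E := by
    rw [hH]
    exact Nat.floor_le (by positivity)
  have hNE : 4 * E ≤ (N' : ℝ) / E := by
    rw [le_div_iff₀ hE0]
    linarith
  have hH2 : (N' : ℝ) / E / 2 ≤ H := by
    have h1 := Nat.lt_floor_add_one ((N' : ℝ) / E)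
    rw [← hH] at h1
    linarith
  have hHpos : 0 < H := by
    have h1 : (0 : ℝ) < H := by linarith
    exact_mod_cast h1
  have hHr : (0 : ℝ) < H := by exact_mod_cast hHpos
  have hNH : N' ≤ H ^ 2 := by
    have h1 : (N' : ℝ) ≤ (H : ℝ) ^ 2 := by
      have h2 : ((N' : ℝ) / E / 2) ^ 2 ≤ (H : ℝ) ^ 2 := pow_le_pow_left₀ (by positivity) hH2 2
      refine le_trans ?_ h2
      have h3 : ((N' : ℝ) / E / 2) ^ 2 = N' * (N' / (4 * E ^ 2)) := by
        field_simp
        norm_num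
      rw [h3]
      have h4 : (1 : ℝ) ≤ N' / (4 * E ^ 2) := by
        rw [le_div_iff₀ (by positivity), one_mul]
        exact hN'E
      have h5 : (0 : ℝ) ≤ N' := Nat.cast_nonneg _
      nlinarith
    exact_mod_cast h1
  have hEH : E ≤ (N' : ℝ) / H := by
    rw [le_div_iff₀ hHr]
    rw [le_div_iff₀ hE0] at hH1
    linarith
  have hlog : 768 * C * (s : ℝ) ^ 2 ≤ Real.log ((N' : ℝ) / H) := by
    rw [Real.le_log_iff_exp_le (lt_of_lt_of_le hE0 hEH), ← hE]
    exact hEH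
  have hmain := (all_scales C hC A hA hnth N' H s hs hHpos hNH hlog S
    (fun a ha hle => hcov a ha (by omega))).2
  have hsub : ∑ i, ∑ n ∈ (range (2 * N')).filter (fun n => 4 ≤ rep (A ∩ S i) n),
        (rep (A ∩ S i) n : ℝ) ^ 2 ≤
      ∑ i, ∑ n ∈ (range (N + 1)).filter (fun n => 4 ≤ rep (A ∩ S i) n),
        (rep (A ∩ S i) n : ℝ) ^ 2 := by
    refine sum_le_sum fun i _ => sum_le_sum_of_subset_of_nonneg ?_ fun _ _ _ => by positivity
    intro n hn
    rw [mem_filter, mem_range] at hn ⊢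
    exact ⟨by omega, hn.2⟩
  refine le_trans ?_ (le_trans hmain hsub)
  have h1 : (768 * C * (s : ℝ) ^ 2) ^ 2 ≤ Real.log ((N' : ℝ) / H) ^ 2 :=
    pow_le_pow_left₀ (by positivity) hlog 2
  rw [le_div_iff₀ (by positivity), Real.exp_neg, ← hE]
  calc E⁻¹ * N * (73728 * C ^ 2 * s ^ 3)
      ≤ E⁻¹ * (4 * N') * (73728 * C ^ 2 * s ^ 3) := by
        refine mul_le_mul_of_nonneg_right (mul_le_mul_of_nonneg_left hN'4 ?_) (by positivity)
        positivity
    _ ≤ E⁻¹ * (4 * N') * (73728 * C ^ 2 * (s ^ 3 * s)) := by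
        refine mul_le_mul_of_nonneg_left ?_ (by positivity)
        refine mul_le_mul_of_nonneg_left ?_ (by positivity)
        have h2 : (0 : ℝ) ≤ (s : ℝ) ^ 3 := by positivity
        nlinarith
    _ = ((N' : ℝ) / E / 2) * (768 * C * (s : ℝ) ^ 2) ^ 2 := by
        field_simp
        ring
    _ ≤ H * Real.log ((N' : ℝ) / H) ^ 2 :=
        mul_le_mul hH2 h1 (by positivity) hHr.le

end Pool.Agent.V5helper43.ET
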