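import Mathlib
import Pool.Agent.V5helper43.ET.Shifts

set_option autoImplicit false

namespace Pool.Agent.V5helper43.ET

open MeasureTheory ProbabilityTheory

/-- the block `A ∩ [4^k, 4^(k+1))` -/
def block (A : Set ℕ) (k : ℕ) : Set ℕ := A ∩ Set.Ico (4 ^ k) (4 ^ (k + 1))

/-- residual shifts for two explicit finite sets -/
def resid2 (Y D : Finset ℕ) (n : ℕ) : Finset ℕ :=
  (Y ×ˢ D).image (fun p => n - (p.1 + p.2))

lemma card_resid2 {Y D : Finset ℕ} {n K : ℕ} (hn : ∀ y ∈ Y, ∀ b ∈ D, y + b ≤ n)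
    (hK : ∀ s, ((Y ×ˢ D).filter (fun p => p.1 + p.2 = s)).card ≤ K) :
    Y.card * D.card ≤ K * (resid2 Y D n).card := by
  rw [← Finset.card_product]
  unfold resid2
  refine Finset.card_le_mul_card_image _ K ?_
  intro t ht
  refine le_trans (Finset.card_le_card ?_) (hK (n - t))
  rintro ⟨y, b⟩ hp
  simp only [Finset.mem_product, Finset.mem_filter] at hp ⊢
  obtain ⟨⟨hy, hb⟩, h3⟩ := hp
  have h4 := hn y hy b hb
  exact ⟨⟨hy, hb⟩, by omega⟩

theorem small_shifts {Ω : Type*} [MeasurableSpace Ω] (μ : Measure Ω) [IsProbabilityMeasure μ]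
    (A : Set ℕ) (τ : ℕ → Ω → ℕ) (hτ : ∀ k, Measurable (τ k)) (hind : iIndepFun τ μ)
    (hwin : ∀ s N : ℕ, ∃ m M : ℕ, N ≤ M ∧ ∀ j, m ≤ j → j < m + M ^ s →
      (∀ x, 4 ^ j ≤ x → x + 4 ^ j / M ^ 2 ≤ 4 ^ (j + 1) →
        2 ^ j ≤ M ^ 4 * (A ∩ Set.Ico x (x + 4 ^ j / M ^ 2)).ncard) ∧
      ∀ t, M * t < 4 ^ j → 1 ≤ M * 4 ^ j * μ.real {ω | τ j ω = t}) :
    ∀ᵐ ω ∂μ, ∀ K : ℕ, ∃ m, K ≤ rep (shifted (block A) (fun k => τ k ω)) m := by
  rw [ae_all_iff]
  intro T
  by_cases hpair : ∃ k j u, T ≤ {p : ℕ × ℕ | p.1 ∈ block A k ∧ p.2 ∈ block A j ∧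
      p.1 + p.2 = u}.ncard
  · obtain ⟨k, j, u, h⟩ := hpair
    exact Filter.Eventually.of_forall fun ω =>
      ⟨_, le_trans h (rep_ge_of_pair (block A) (fun k => τ k ω) k j u)⟩
  push Not at hpair
  suffices hmain : ∀ N : ℕ, μ {ω | ¬ ∃ m, T ≤ rep (shifted (block A) (fun k => τ k ω)) m}
      ≤ ENNReal.ofReal (Real.exp (-(N : ℝ))) by
    rw [ae_iff]
    have hlim : Filter.Tendsto (fun N : ℕ => ENNReal.ofReal (Real.exp (-(N : ℝ)))) Filter.atTop
        (nhds (ENNReal.ofReal 0)) := by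
      apply (ENNReal.continuous_ofReal.tendsto 0).comp
      exact Real.tendsto_exp_neg_atTop_nhds_zero.comp tendsto_natCast_atTop_atTop
    rw [ENNReal.ofReal_zero] at hlim
    exact le_antisymm (ge_of_tendsto' hlim hmain) zero_le
  intro N
  obtain ⟨m, M, hNM, hgood'⟩ := hwin (10 * T + 2) (N + 4 ^ (T + 2))
  have h4T : 1 ≤ 4 ^ T := Nat.one_le_pow _ _ (by norm_num)
  have hM4 : 4 ^ (T + 2) ≤ M := by omega
  have hMT : T + 1 ≤ M := by
    have : T < 4 ^ T := Nat.lt_pow_self (by norm_num)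
    have h2 : 4 ^ (T + 2) = 16 * 4 ^ T := by ring
    omega
  have hM1 : 1 ≤ M := by omega
  have hM0 : 0 < M := hM1
  have hMr : (1 : ℝ) ≤ M := by exact_mod_cast hM1
  have hgood : ∀ j, m ≤ j → j < m + M ^ (10 * T + 2) →
      (∀ x, 4 ^ j ≤ x → x + 4 ^ j / M ^ 2 ≤ 4 ^ (j + 1) →
        2 ^ j ≤ M ^ 4 * (A ∩ Set.Ico x (x + 4 ^ j / M ^ 2)).ncard) ∧
      ∀ t, M * t < 4 ^ j → 1 ≤ M * 4 ^ j * μ.real (τ j ⁻¹' {t}) := hgood'
  set R := M ^ (10 * T + 1) with hR
  have hRM : R * M = M ^ (10 * T + 2) := by rw [hR, ← pow_succ]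
  let k : ℕ → ℕ := fun i => m + i * (T + 1) + T
  have hkgap : ∀ i i', i < i' → k i + 1 ≤ k i' - T := by
    intro i i' h
    have h2 : i * (T + 1) + (T + 1) ≤ i' * (T + 1) := by
      calc i * (T + 1) + (T + 1) = (i + 1) * (T + 1) := by ring
        _ ≤ i' * (T + 1) := Nat.mul_le_mul_right _ h
    simp only [k]
    omega
  have hkwin : ∀ i < R, ∀ j, k i - T ≤ j → j ≤ k i → m ≤ j ∧ j < m + M ^ (10 * T + 2) := by
    intro i hi j h1 h2
    have h3 : i * (T + 1) + (T + 1) ≤ M ^ (10 * T + 2) := by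
      calc i * (T + 1) + (T + 1) = (i + 1) * (T + 1) := by ring
        _ ≤ R * M := Nat.mul_le_mul hi hMT
        _ = M ^ (10 * T + 2) := hRM
    simp only [k] at h1 h2
    omega
  -- the scales, the target and the two pieces
  classical
  let jj : Fin R → Fin T → ℕ := fun i a => k i - 1 - a
  have hjj : ∀ (i : Fin R) (a : Fin T), k i - T ≤ jj i a ∧ jj i a < k i := by
    intro i a
    have h1 := a.2
    have h2 : T ≤ k i := by simp only [k]; omega
    simp only [jj]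
    omega
  let l : ℕ → ℕ := fun j => 4 ^ j / M ^ 2
  let n : Fin R → ℕ := fun i => 2 * 4 ^ (k i)
  let x0 : Fin R → Fin T → ℕ := fun i a => n i - (4 ^ (jj i a) + l (k i) + l (jj i a))
  -- sizes of the intervals
  have hlk : ∀ (i : Fin R) (a : Fin T), 4 * (M * l (k i)) ≤ 4 ^ (jj i a) := by
    intro i a
    obtain ⟨h1, h2⟩ := hjj i a
    have h3 : l (k i) * M ^ 2 ≤ 4 ^ (k i) := Nat.div_mul_le_self _ _
    have h4 : 4 ^ (k i) ≤ 4 ^ (jj i a) * 4 ^ T := by
      rw [← pow_add]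
      exact Nat.pow_le_pow_right (by norm_num) (by omega)
    have h5 : (4 * (M * l (k i))) * (4 * 4 ^ T) ≤ 4 ^ (jj i a) * (4 * 4 ^ T) := by
      calc (4 * (M * l (k i))) * (4 * 4 ^ T) = (M * l (k i)) * 4 ^ (T + 2) := by ring
        _ ≤ (M * l (k i)) * M := Nat.mul_le_mul_left _ hM4
        _ = l (k i) * M ^ 2 := by ring
        _ ≤ 4 ^ (jj i a) * 4 ^ T := le_trans h3 h4
        _ ≤ 4 ^ (jj i a) * (4 * 4 ^ T) := Nat.mul_le_mul_left _ (by omega)
    exact Nat.le_of_mul_le_mul_right h5 (by positivity)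
  have hlj : ∀ (i : Fin R) (a : Fin T), 4 * (M * l (jj i a)) ≤ 4 ^ (jj i a) := by
    intro i a
    have h3 : l (jj i a) * M ^ 2 ≤ 4 ^ (jj i a) := Nat.div_mul_le_self _ _
    have h6 : 4 ≤ M := by
      have : 4 ^ (T + 2) = 16 * 4 ^ T := by ring
      omega
    calc 4 * (M * l (jj i a)) ≤ M * (M * l (jj i a)) := Nat.mul_le_mul_right _ h6
      _ = l (jj i a) * M ^ 2 := by ring
      _ ≤ 4 ^ (jj i a) := h3
  have hjk : ∀ (i : Fin R) (a : Fin T), 4 * 4 ^ (jj i a) ≤ 4 ^ (k i) := by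
    intro i a
    obtain ⟨h1, h2⟩ := hjj i a
    calc 4 * 4 ^ (jj i a) = 4 ^ (jj i a + 1) := by ring
      _ ≤ 4 ^ (k i) := Nat.pow_le_pow_right (by norm_num) h2
  have hMl : ∀ u, u ≤ M * u := fun u => Nat.le_mul_of_pos_left _ hM0
  let Y : Fin R → Fin T → Finset ℕ := fun i a =>
    (Finset.Ico (x0 i a) (x0 i a + l (k i))).filter (fun x => x ∈ A)
  let D : Fin R → Fin T → Finset ℕ := fun i a =>
    (Finset.Ico (4 ^ (jj i a)) (4 ^ (jj i a) + l (jj i a))).filter (fun x => x ∈ A)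
  have hx0 : ∀ (i : Fin R) (a : Fin T), x0 i a + (4 ^ (jj i a) + l (k i) + l (jj i a)) = n i
      ∧ 4 ^ (k i) ≤ x0 i a ∧ x0 i a + l (k i) ≤ 4 ^ (k i + 1) := by
    intro i a
    have h1 := hlk i a
    have h2 := hlj i a
    have h3 := hjk i a
    have h4 := hMl (l (k i))
    have h5 := hMl (l (jj i a))
    have h6 : 4 ^ (k i + 1) = 4 * 4 ^ (k i) := by ring
    simp only [x0, n]
    omega
  have hYA : ∀ (i : Fin R) (a : Fin T), ∀ y ∈ Y i a, y ∈ block A (k i) := by
    intro i a y hy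
    obtain ⟨_, h2, h3⟩ := hx0 i a
    have h4 := Finset.mem_filter.mp hy
    have h5 := Finset.mem_Ico.mp h4.1
    exact ⟨h4.2, ⟨by omega, by omega⟩⟩
  have hDA : ∀ (i : Fin R) (a : Fin T), ∀ b ∈ D i a, b ∈ block A (jj i a) := by
    intro i a b hb
    have h2 := hlj i a
    have h3 := hMl (l (jj i a))
    have h4 := Finset.mem_filter.mp hb
    have h5 := Finset.mem_Ico.mp h4.1
    have h6 : 4 ^ (jj i a + 1) = 4 * 4 ^ (jj i a) := by ring
    exact ⟨h4.2, ⟨by omega, by omega⟩⟩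
  have hYcard : ∀ (i : Fin R) (a : Fin T), 2 ^ (k i) ≤ M ^ 4 * (Y i a).card := by
    intro i a
    obtain ⟨_, h2, h3⟩ := hx0 i a
    obtain ⟨h5, h6⟩ := hkwin i i.2 (k i) (by omega) le_rfl
    have h7 := (hgood (k i) h5 h6).1 (x0 i a) h2 h3
    have h8 : A ∩ Set.Ico (x0 i a) (x0 i a + 4 ^ (k i) / M ^ 2) = (Y i a : Set ℕ) := by
      ext x
      simp only [Y, l, Set.mem_inter_iff, Set.mem_Ico, Finset.coe_filter, Finset.mem_Ico,
        Set.mem_ofPred_eq]
      tauto
    rw [h8, Set.ncard_coe_finset] at h7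
    exact h7
  have hDcard : ∀ (i : Fin R) (a : Fin T), 2 ^ (jj i a) ≤ M ^ 4 * (D i a).card := by
    intro i a
    obtain ⟨h1, h2⟩ := hjj i a
    obtain ⟨h5, h6⟩ := hkwin i i.2 (jj i a) h1 h2.le
    have h3 := hlj i a
    have h4 := hMl (l (jj i a))
    have h9 : 4 ^ (jj i a + 1) = 4 * 4 ^ (jj i a) := by ring
    have h7 := (hgood (jj i a) h5 h6).1 (4 ^ (jj i a)) le_rfl (by
      have : 4 ^ (jj i a) / M ^ 2 = l (jj i a) := rfl
      omega)
    have h8 : A ∩ Set.Ico (4 ^ (jj i a)) (4 ^ (jj i a) + 4 ^ (jj i a) / M ^ 2)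
        = (D i a : Set ℕ) := by
      ext x
      simp only [D, l, Set.mem_inter_iff, Set.mem_Ico, Finset.coe_filter, Finset.mem_Ico,
        Set.mem_ofPred_eq]
      tauto
    rw [h8, Set.ncard_coe_finset] at h7
    exact h7
  have hpairT : ∀ (i : Fin R) (a : Fin T) (s : ℕ), ((Y i a ×ˢ D i a).filter (fun p => p.1 + p.2 = s)).card ≤ T := by
    intro i a s
    refine le_trans ?_ (hpair (k i) (jj i a) s).le
    rw [← Set.ncard_coe_finset]
    apply Set.ncard_le_ncard _ (pair_finite _ _ _)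
    rintro ⟨y, b⟩ h
    simp only [Finset.mem_coe, Finset.mem_filter, Finset.mem_product] at h
    exact ⟨hYA i a _ h.1.1, hDA i a _ h.1.2, h.2⟩
  have hYbound : ∀ (i : Fin R) (a : Fin T), ∀ y ∈ Y i a, 4 ^ (jj i a) + l (jj i a) < n i - y ∧ y ≤ n i ∧
      n i - y ≤ 4 ^ (jj i a) + l (k i) + l (jj i a) := by
    intro i a y hy
    obtain ⟨h1, _, _⟩ := hx0 i a
    have h4 := Finset.mem_filter.mp hy
    have h5 := Finset.mem_Ico.mp h4.1
    have h6 : 0 < 4 ^ (jj i a) := by positivity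
    omega
  have hDbound : ∀ (i : Fin R) (a : Fin T), ∀ b ∈ D i a, 4 ^ (jj i a) ≤ b ∧ b < 4 ^ (jj i a) + l (jj i a) := by
    intro i a b hb
    have h4 := Finset.mem_filter.mp hb
    exact Finset.mem_Ico.mp h4.1
  -- the hitting events
  let S : Fin R × Fin T → Finset ℕ := fun p => resid2 (Y p.1 p.2) (D p.1 p.2) (n p.1)
  have hSmem : ∀ (i : Fin R) (a : Fin T), ∀ t ∈ S (i, a), M * t < 4 ^ (jj i a) ∧
      ∃ y ∈ Y i a, ∃ b ∈ D i a, y + b + t = n i := by
    intro i a t ht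
    simp only [S, resid2, Finset.mem_image, Finset.mem_product, Prod.exists] at ht
    obtain ⟨y, b, ⟨hy, hb⟩, rfl⟩ := ht
    obtain ⟨h1, h2, h3⟩ := hYbound i a y hy
    obtain ⟨h4, h5⟩ := hDbound i a b hb
    have h6 := hlk i a
    have h7 := hlj i a
    have h8 : n i - (y + b) ≤ l (k i) + l (jj i a) := by omega
    have h9 : M * (n i - (y + b)) ≤ M * l (k i) + M * l (jj i a) := by
      calc M * (n i - (y + b)) ≤ M * (l (k i) + l (jj i a)) := Nat.mul_le_mul_left _ h8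
        _ = M * l (k i) + M * l (jj i a) := by ring
    have h10 : 0 < 4 ^ (jj i a) := by positivity
    refine ⟨by omega, y, hy, b, hb, by omega⟩
  let g : Fin R × Fin T → ℕ := fun p => jj p.1 p.2
  have hjjinj : ∀ i, Function.Injective (jj i) := by
    intro i a a' h
    have h1 := a.2
    have h2 := a'.2
    have h3 : T ≤ k i := by simp only [k]; omega
    simp only [jj] at h
    apply Fin.ext
    omega
  have hg : Function.Injective g := by
    rintro ⟨i, a⟩ ⟨i', a'⟩ h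
    simp only [g] at h
    have hmm : i = i' := by
      rcases lt_trichotomy i.1 i'.1 with hlt | heq | hlt
      · have h1 := hkgap i.1 i'.1 hlt
        have h2 := hjj i a
        have h3 := hjj i' a'
        omega
      · exact Fin.ext heq
      · have h1 := hkgap i'.1 i.1 hlt
        have h2 := hjj i a
        have h3 := hjj i' a'
        omega
    subst hmm
    exact Prod.ext rfl (hjjinj i h)
  have hindg : iIndepFun (fun p => τ (g p)) μ := hind.precomp hg
  set κ : ℝ := 1 / (M : ℝ) ^ 10 with hκ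
  have hκpos : 0 < κ := by positivity
  have hprob : ∀ p, κ ≤ μ.real (τ (g p) ⁻¹' (S p : Set ℕ)) := by
    rintro ⟨i, a⟩
    obtain ⟨h1, h2⟩ := hjj i a
    obtain ⟨hw1, hw2⟩ := hkwin i i.2 (jj i a) h1 h2.le
    have h4 := (hgood (jj i a) hw1 hw2).2
    have h5 := prob_hit μ (τ (g (i, a))) (hτ _) (S (i, a)) (1 / (M * 4 ^ (jj i a))) (by
      intro t ht
      rw [div_le_iff₀ (by positivity), mul_comm]
      exact h4 t (hSmem i a t ht).1)
    refine le_trans ?_ h5
    have h6 := card_resid2 (Y := Y i a) (D := D i a) (n := n i) (K := T) (by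
      intro y hy b hb
      obtain ⟨h1, h2, h3⟩ := hYbound i a y hy
      obtain ⟨h4, h5⟩ := hDbound i a b hb
      omega) (hpairT i a)
    have h7 : 4 ^ (jj i a) ≤ M ^ 9 * (S (i, a)).card := by
      calc 4 ^ (jj i a) = 2 ^ (jj i a) * 2 ^ (jj i a) := by rw [← mul_pow]; norm_num
        _ ≤ 2 ^ (k i) * 2 ^ (jj i a) :=
            Nat.mul_le_mul_right _ (Nat.pow_le_pow_right (by norm_num) h2.le)
        _ ≤ (M ^ 4 * (Y i a).card) * (M ^ 4 * (D i a).card) :=
            Nat.mul_le_mul (hYcard i a) (hDcard i a)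
        _ = M ^ 8 * ((Y i a).card * (D i a).card) := by ring
        _ ≤ M ^ 8 * (T * (S (i, a)).card) := Nat.mul_le_mul_left _ h6
        _ ≤ M ^ 8 * (M * (S (i, a)).card) :=
            Nat.mul_le_mul_left _ (Nat.mul_le_mul_right _ (by omega))
        _ = M ^ 9 * (S (i, a)).card := by ring
    have h8 : (4 : ℝ) ^ (jj i a) ≤ M ^ 9 * (S (i, a)).card := by exact_mod_cast h7
    rw [hκ, mul_one_div, div_le_div_iff₀ (by positivity) (by positivity)]
    calc 1 * ((M : ℝ) * 4 ^ (jj i a)) ≤ 1 * (M * (M ^ 9 * (S (i, a)).card)) := by gcongr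
      _ = (S (i, a)).card * (M : ℝ) ^ 10 := by ring
  -- the window events
  let E : Fin R → Set Ω := fun i => ⋂ a : Fin T, τ (g (i, a)) ⁻¹' (S (i, a) : Set ℕ)
  have hEmeas : ∀ i, MeasurableSet (E i) := by
    intro i
    exact MeasurableSet.iInter fun a => hτ _ (Finset.measurableSet _)
  have hprod : ∀ F : Finset (Fin R), μ (⋂ i ∈ F, E i)
      = ∏ i ∈ F, ∏ a : Fin T, μ (τ (g (i, a)) ⁻¹' (S (i, a) : Set ℕ)) := by
    intro F
    have h1 : (⋂ i ∈ F, E i) = ⋂ p ∈ F ×ˢ (Finset.univ : Finset (Fin T)),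
        τ (g p) ⁻¹' (S p : Set ℕ) := by
      ext ω
      simp only [E, Set.mem_iInter, Finset.mem_product, Finset.mem_univ, and_true, Prod.forall]
      exact ⟨fun h i a hi => h i hi a, fun h i hi a => h i a hi⟩
    rw [h1, hindg.measure_inter_preimage_eq_mul (F ×ˢ (Finset.univ : Finset (Fin T)))
      (fun p _ => Finset.measurableSet _), Finset.prod_product]
  have hEprod : ∀ i, μ (E i) = ∏ a : Fin T, μ (τ (g (i, a)) ⁻¹' (S (i, a) : Set ℕ)) := by
    intro i
    have := hprod {i}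
    simpa using this
  have hEindep : iIndepSet E μ := by
    rw [iIndepSet_iff_meas_biInter hEmeas]
    intro F
    rw [hprod F]
    exact Finset.prod_congr rfl fun i _ => (hEprod i).symm
  have hElow : ∀ i, κ ^ T ≤ μ.real (E i) := by
    intro i
    rw [Measure.real, hEprod i, ENNReal.toReal_prod]
    calc κ ^ T = ∏ _a : Fin T, κ := by simp
      _ ≤ _ := by
        apply Finset.prod_le_prod
        · intro a _; exact hκpos.le
        · intro a _
          exact hprob (i, a)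
  have hfail : μ (⋂ i ∈ (Finset.univ : Finset (Fin R)), (E i)ᶜ) = ∏ i : Fin R, μ ((E i)ᶜ) := by
    apply iIndep.meas_biInter hEindep
    intro i _
    exact MeasurableSet.compl (MeasurableSpace.measurableSet_generateFrom rfl)
  have hκT : κ ^ T * R = M := by
    rw [hκ, div_pow, one_pow, ← pow_mul, hR]
    push_cast
    rw [pow_succ]
    have : (M : ℝ) ^ (10 * T) ≠ 0 := by positivity
    field_simp
  -- success on any window event
  have hsucc : ∀ i : Fin R, ∀ ω ∈ E i, ∃ u, T ≤ rep (shifted (block A) (fun k => τ k ω)) u := by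
    intro i ω hω
    have hrep : ∀ a : Fin T, ∃ y ∈ Y i a, ∃ b ∈ D i a, y + b + τ (jj i a) ω = n i := by
      intro a
      have h1 : τ (g (i, a)) ω ∈ S (i, a) := by
        have := Set.mem_iInter.mp hω a
        simpa using this
      exact (hSmem i a _ h1).2
    choose y hy b hb h3 using hrep
    refine ⟨n i + τ (k i) ω, le_rep_of_injective _ _
      (fun a => (y a + τ (k i) ω, b a + τ (jj i a) ω)) ?_ ?_⟩
    · intro a a' h
      simp only [Prod.mk.injEq, Nat.add_right_cancel_iff] at h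
      apply hjjinj i
      by_contra hne
      have h1 := hYbound i a (y a) (hy a)
      have h2 := hYbound i a' (y a') (hy a')
      have h4 := hlk i a
      have h5 := hlk i a'
      have h6 := hlj i a
      have h7 := hlj i a'
      have h8 := hMl (l (k i))
      have h9 := hMl (l (jj i a))
      have h10 := hMl (l (jj i a'))
      have h11 := h.1
      rcases Nat.lt_or_gt_of_ne hne with hlt | hlt
      · have h12 : 4 * 4 ^ (jj i a) ≤ 4 ^ (jj i a') := by
          calc 4 * 4 ^ (jj i a) = 4 ^ (jj i a + 1) := by ring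
            _ ≤ 4 ^ (jj i a') := Nat.pow_le_pow_right (by norm_num) hlt
        omega
      · have h12 : 4 * 4 ^ (jj i a') ≤ 4 ^ (jj i a) := by
          calc 4 * 4 ^ (jj i a') = 4 ^ (jj i a' + 1) := by ring
            _ ≤ 4 ^ (jj i a) := Nat.pow_le_pow_right (by norm_num) hlt
        omega
    · intro a
      refine ⟨⟨k i, y a, hYA i a _ (hy a), rfl⟩, ⟨jj i a, b a, hDA i a _ (hb a), rfl⟩, ?_⟩
      have := h3 a
      simp only
      omega
  have hsub : {ω | ¬ ∃ m, T ≤ rep (shifted (block A) (fun k => τ k ω)) m}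
      ⊆ ⋂ i ∈ (Finset.univ : Finset (Fin R)), (E i)ᶜ := by
    intro ω hω
    simp only [Finset.mem_univ, Set.iInter_true, Set.mem_iInter]
    intro i hi
    exact hω (hsucc i ω hi)
  refine le_trans (measure_mono hsub) ?_
  rw [hfail]
  have hcompl : ∀ i, μ ((E i)ᶜ) ≤ ENNReal.ofReal (Real.exp (-(κ ^ T))) := by
    intro i
    rw [ENNReal.le_ofReal_iff_toReal_le (measure_ne_top _ _) (Real.exp_pos _).le]
    change μ.real ((E i)ᶜ) ≤ _
    rw [probReal_compl_eq_one_sub (hEmeas i)]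
    have h1 := hElow i
    have h2 := Real.add_one_le_exp (-(κ ^ T))
    linarith
  calc ∏ i : Fin R, μ ((E i)ᶜ) ≤ ∏ _i : Fin R, ENNReal.ofReal (Real.exp (-(κ ^ T))) :=
        Finset.prod_le_prod' fun i _ => hcompl i
    _ = ENNReal.ofReal (Real.exp (-(M : ℝ))) := by
        rw [Finset.prod_const, Finset.card_univ, Fintype.card_fin,
          ← ENNReal.ofReal_pow (Real.exp_pos _).le, ← Real.exp_nat_mul]
        congr 2
        linarith
    _ ≤ ENNReal.ofReal (Real.exp (-(N : ℝ))) := by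
        apply ENNReal.ofReal_le_ofReal
        apply Real.exp_le_exp.mpr
        have : (N : ℝ) ≤ M := by exact_mod_cast le_trans (Nat.le_add_right _ _) hNM
        linarith

end Pool.Agent.V5helper43.ET
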